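import Pool.Agent.Lib.MP_257afc_co.ZO.H41.Star

/-!
Section 5: pyramids, teaching sets and the combinatorial form of the theorem.
-/

set_option autoImplicit false

namespace Pool.Agent.Lib.MP_257afc_co.ZO

variable {D : Type} [Fintype D]

/-- The induction hypothesis for `k`. -/
def Hyp (k l N : ℕ) : Prop := ∀ (D : Type) [Fintype D] (S : Set (D → Bool)),
  N ≤ S.ncard → (∃ G, IsFace S G ∧ IsSimp G (k + 1)) ∨ ∃ G, IsFace S G ∧ IsCube G l

theorem IsFace.coord1 {S G : Set (D → Bool)} (hG : IsFace S G) (j : D) (b : Bool)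
    (hne : ∃ y ∈ G, y j = b) : IsFace S {y | y ∈ G ∧ y j = b} := by
  have h1 := hG.coord (ι := Unit) (fun _ => j) (fun _ => b) Finset.univ (by
    obtain ⟨y, hy, hyj⟩ := hne
    exact ⟨y, hy, fun _ _ => hyj⟩)
  have h2 : {y | y ∈ G ∧ y j = b} =
      {y | y ∈ G ∧ Agree (fun _ : Unit => j) (fun _ => b) Finset.univ y} := by
    ext y
    simp [Agree]
  rw [h2]
  exact h1

theorem pyr1 {k l N : ℕ} (hyp : Hyp k l N) {S E : Set (D → Bool)} (hNS : NS (k + 1) S)
    (hNC : NC l S) (hE : IsFace S E) (j : D) (b : Bool) (v : D → Bool) (hv : v ∈ E)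
    (hvj : v j = b) (huniq : ∀ y ∈ E, y j = b → y = v) :
    ({y | y ∈ E ∧ y j = !b} : Set (D → Bool)).ncard < N := by
  classical
  by_contra hcon
  push Not at hcon
  set E1 : Set (D → Bool) := {y | y ∈ E ∧ y j = !b} with hE1
  have hE1face : ∀ G, IsFace E1 G → IsFace S G := by
    intro G hG
    obtain ⟨y, hy⟩ := hG.nonempty
    have h1 := hG.subset hy
    exact (hE.coord1 j (!b) ⟨y, h1.1, h1.2⟩).trans hG
  rcases hyp D E1 hcon with ⟨G, hG, hGs⟩ | ⟨G, hG, hGc⟩
  · obtain ⟨g, a, rfl, ha, hga⟩ := hGs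
    obtain ⟨-, h, hh, hle, hiff⟩ := hG
    have hbj : ∀ y : D → Bool, y j = !b → bv (xor (y j) (!b)) = 0 := fun y hy =>
      bv_xor_eq_zero.2 hy
    have hvb : bv (xor (v j) (!b)) = 1 := bv_xor_eq_one.2 (by rw [hvj]; cases b <;> simp)
    have hgE : ∀ i, g i ∈ E1 := fun i => ((hiff (g i)).1 ⟨i, rfl⟩).1
    have hF := hE.zero (h := fun y => h y - h v * bv (xor (y j) (!b)))
      (hh.sub ((Aff.cxor j (!b)).smul (h v)))
      (fun y hy => by
        by_cases hyj : y j = b
        · rw [huniq y hy hyj]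
          simp only [hvb, mul_one, sub_self, le_refl]
        · have hyj' : y j = !b := by
            cases b <;> simp_all
          simp only [hbj y hyj', mul_zero, sub_zero]
          exact hle y ⟨hy, hyj'⟩)
      ⟨v, hv, by simp only [hvb, mul_one, sub_self]⟩
    refine hNS _ hF ⟨Fin.cons v g, Fin.cons (fun y => bv (xor (y j) (!b)))
      (fun i y => a i y - a i v * bv (xor (y j) (!b))), ?_, ?_, ?_⟩
    · ext y
      constructor
      · rintro ⟨hy, hy0⟩
        by_cases hyj : y j = b
        · exact ⟨0, (huniq y hy hyj).symm⟩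
        · have hyj' : y j = !b := by
            cases b <;> simp_all
          simp only [hbj y hyj', mul_zero, sub_zero] at hy0
          obtain ⟨i, hi⟩ := (hiff y).2 ⟨⟨hy, hyj'⟩, hy0⟩
          exact ⟨i.succ, hi⟩
      · rintro ⟨i, rfl⟩
        refine Fin.cases ?_ (fun i => ?_) i
        · exact ⟨hv, by simp only [Fin.cons_zero, hvb, mul_one, sub_self]⟩
        · obtain ⟨h1, h2⟩ := (hiff (g i)).1 ⟨i, rfl⟩
          refine ⟨by simpa using h1.1, ?_⟩
          simp only [Fin.cons_succ, hbj _ h1.2, mul_zero, sub_zero, h2]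
    · intro i
      refine Fin.cases ?_ (fun i => ?_) i
      · simpa using Aff.cxor j (!b)
      · simpa using (ha i).sub ((Aff.cxor j (!b)).smul (a i v))
    · intro i i'
      refine Fin.cases ?_ (fun i => ?_) i
      · refine Fin.cases ?_ (fun i' => ?_) i'
        · simp only [Fin.cons_zero, hvb, if_true]
        · simp only [Fin.cons_zero, Fin.cons_succ, hbj _ (hgE i').2]
          rw [if_neg (Fin.succ_ne_zero i').symm]
      · refine Fin.cases ?_ (fun i' => ?_) i'
        · simp only [Fin.cons_zero, Fin.cons_succ, hvb, mul_one, sub_self]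
          rw [if_neg (Fin.succ_ne_zero i)]
        · simp only [Fin.cons_succ, hbj _ (hgE i').2, mul_zero, sub_zero, hga,
            Fin.succ_inj]
  · exact hNC G (hE1face G hG) hGc

theorem pyr2 {k l N : ℕ} (hyp : Hyp k l N) {S : Set (D → Bool)} (hNS : NS (k + 1) S)
    (hNC : NC l S) : ∀ (a : ℕ) (E : Set (D → Bool)), IsFace S E → ∀ (j : D) (b : Bool),
      ({y | y ∈ E ∧ y j = b} : Set (D → Bool)).Nonempty →
      ({y | y ∈ E ∧ y j = b} : Set (D → Bool)).ncard ≤ a + 1 →
      E.ncard ≤ 2 ^ a * (N + 1) := by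
  classical
  have hsplit : ∀ (E : Set (D → Bool)) (r : D) (b : Bool),
      E.ncard ≤ ({y | y ∈ E ∧ y r = b} : Set (D → Bool)).ncard +
        ({y | y ∈ E ∧ y r = !b} : Set (D → Bool)).ncard := by
    intro E r b
    have h1 : E = {y | y ∈ E ∧ y r = b} ∪ {y | y ∈ E ∧ y r = !b} := by
      ext y
      constructor
      · intro hy
        by_cases h : y r = b
        · exact Or.inl ⟨hy, h⟩
        · exact Or.inr ⟨hy, by cases b <;> simp_all⟩
      · rintro (h | h)
        · exact h.1
        · exact h.1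
    conv_lhs => rw [h1]
    exact Set.ncard_union_le _ _
  intro a
  induction a with
  | zero =>
    intro E hE j b hne hcard
    obtain ⟨v, hv, hvj⟩ := hne
    have h0 : ({y | y ∈ E ∧ y j = b} : Set (D → Bool)).ncard ≤ 1 := hcard
    have huniq : ∀ y ∈ E, y j = b → y = v := fun y hy hyj =>
      (Set.ncard_le_one (Set.toFinite _)).1 h0 y ⟨hy, hyj⟩ v ⟨hv, hvj⟩
    have h1 := pyr1 hyp hNS hNC hE j b v hv hvj huniq
    have h2 := hsplit E j b
    rw [pow_zero, one_mul]
    omega
  | succ a ih =>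
    intro E hE j b hne hcard
    by_cases hsmall : ({y | y ∈ E ∧ y j = b} : Set (D → Bool)).ncard ≤ a + 1
    · refine (ih E hE j b hne hsmall).trans ?_
      exact Nat.mul_le_mul_right _ (Nat.pow_le_pow_right (by norm_num) (Nat.le_succ a))
    · have h2 : 1 < ({y | y ∈ E ∧ y j = b} : Set (D → Bool)).ncard := by omega
      obtain ⟨y1, hy1, y2, hy2, hne12⟩ := (Set.one_lt_ncard (Set.toFinite _)).1 h2
      obtain ⟨r, hr⟩ := Function.ne_iff.1 hne12
      have hρ : ∀ ρ : Bool, ({y | y ∈ E ∧ y r = ρ} : Set (D → Bool)).ncard ≤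
          2 ^ a * (N + 1) := by
        intro ρ
        obtain ⟨z, hz, hzr⟩ : ∃ z, z ∈ ({y | y ∈ E ∧ y j = b} : Set (D → Bool)) ∧ z r = ρ := by
          by_cases h : y1 r = ρ
          · exact ⟨y1, hy1, h⟩
          · refine ⟨y2, hy2, ?_⟩
            cases h1 : y1 r <;> cases h2 : y2 r <;> cases ρ <;> simp_all
        obtain ⟨z', hz', hz'r⟩ : ∃ z, z ∈ ({y | y ∈ E ∧ y j = b} : Set (D → Bool)) ∧
            z r ≠ ρ := by
          by_cases h : y1 r = ρ
          · exact ⟨y2, hy2, fun h' => hr (h.trans h'.symm)⟩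
          · exact ⟨y1, hy1, h⟩
        refine ih _ (hE.coord1 r ρ ⟨z, hz.1, hzr⟩) j b ⟨z, ⟨hz.1, hzr⟩, hz.2⟩ ?_
        have hlt : ({y | y ∈ {y | y ∈ E ∧ y r = ρ} ∧ y j = b} : Set (D → Bool)).ncard <
            ({y | y ∈ E ∧ y j = b} : Set (D → Bool)).ncard := by
          refine Set.ncard_lt_ncard ⟨fun y hy => ⟨hy.1.1, hy.2⟩, fun h => ?_⟩ (Set.toFinite _)
          exact hz'r (h hz').1.2
        omega
      have h3 := hsplit E r true
      have h4 := hρ true
      have h5 := hρ (!true)
      have h6 : 2 ^ (a + 1) * (N + 1) = 2 ^ a * (N + 1) + 2 ^ a * (N + 1) := by ring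
      rw [h6]
      exact h3.trans (Nat.add_le_add h4 h5)

/-- The size which guarantees that all teaching sets have more than `n` elements. -/
def HH (N : ℕ) : ℕ → ℕ
  | 0 => 1
  | n + 1 => 2 ^ HH N n * (N + 1)

theorem one_le_HH (N n : ℕ) : 1 ≤ HH N n := by
  cases n with
  | zero => exact le_rfl
  | succ n =>
    change 1 ≤ 2 ^ HH N n * (N + 1)
    exact Nat.succ_le_of_lt (Nat.mul_pos (pow_pos (by norm_num) _) (Nat.succ_pos _))

theorem teach {k l N : ℕ} (hyp : Hyp k l N) {S : Set (D → Bool)} (hNS : NS (k + 1) S)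
    (hNC : NC l S) : ∀ (n : ℕ) (E : Set (D → Bool)), IsFace S E → HH N n < E.ncard →
      ∀ v ∈ E, ∀ Q : Finset D, Q.card ≤ n → ∃ y ∈ E, y ≠ v ∧ ∀ q ∈ Q, y q = v q := by
  classical
  have hone : ∀ E : Set (D → Bool), 1 < E.ncard → ∀ v ∈ E, ∃ y ∈ E, y ≠ v := by
    intro E hE v hv
    obtain ⟨y, hy, hne⟩ := Set.exists_ne_of_one_lt_ncard hE v
    exact ⟨y, hy, hne⟩
  intro n
  induction n with
  | zero =>
    intro E hE hcard v hv Q hQ
    obtain ⟨y, hy, hne⟩ := hone E hcard v hv
    refine ⟨y, hy, hne, fun q hq => ?_⟩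
    rw [Finset.card_eq_zero.1 (Nat.le_zero.1 hQ)] at hq
    exact absurd hq (Finset.notMem_empty q)
  | succ n ih =>
    intro E hE hcard v hv Q hQ
    rcases Q.eq_empty_or_nonempty with rfl | ⟨j, hj⟩
    · obtain ⟨y, hy, hne⟩ := hone E (lt_of_le_of_lt (one_le_HH N (n + 1)) hcard) v hv
      exact ⟨y, hy, hne, fun q hq => absurd hq (Finset.notMem_empty q)⟩
    · have hE' := hE.coord1 j (v j) ⟨v, hv, rfl⟩
      have h1 : HH N n < ({y | y ∈ E ∧ y j = v j} : Set (D → Bool)).ncard := by
        by_contra h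
        push Not at h
        have h2 := pyr2 hyp hNS hNC (HH N n) E hE j (v j) ⟨v, hv, rfl⟩ (by omega)
        exact absurd hcard (not_lt.2 h2)
      obtain ⟨y, hy, hne, hall⟩ := ih _ hE' h1 v ⟨hv, rfl⟩ (Q.erase j) (by
        rw [Finset.card_erase_of_mem hj]; omega)
      refine ⟨y, hy.1, hne, fun q hq => ?_⟩
      by_cases hqj : q = j
      · rw [hqj]; exact hy.2
      · exact hall q (Finset.mem_erase.2 ⟨hqj, hq⟩)

/-- Switching by `v`. -/
def sw (v y : D → Bool) : D → Bool := fun q => xor (v q) (y q)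

omit [Fintype D] in
theorem sw_sw (v y : D → Bool) : sw v (sw v y) = y := by
  funext q
  simp [sw]

omit [Fintype D] in
theorem mem_sw {v y : D → Bool} {G : Set (D → Bool)} : y ∈ sw v '' G ↔ sw v y ∈ G := by
  constructor
  · rintro ⟨z, hz, rfl⟩
    rwa [sw_sw]
  · intro h
    exact ⟨_, h, sw_sw v y⟩

omit [Fintype D] in
theorem sw_image_image (v : D → Bool) (G : Set (D → Bool)) : sw v '' (sw v '' G) = G := by
  ext y
  rw [mem_sw, mem_sw, sw_sw]

theorem Aff.sw {h : (D → Bool) → ℝ} (a : Aff h) (v : D → Bool) :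
    Aff (fun y => h (ZO.sw v y)) := by
  obtain ⟨c, w, hw⟩ := a
  have h1 : (fun y => h (ZO.sw v y)) = fun y => c + ∑ q, w q * bv (xor (y q) (v q)) := by
    funext y
    rw [hw]
    simp only [ZO.sw, Bool.xor_comm]
  rw [h1]
  exact (Aff.const c).add (Aff.sum _ fun q _ => (Aff.cxor q (v q)).smul (w q))

theorem isFace_sw {v : D → Bool} {S G : Set (D → Bool)} (h : IsFace S G) :
    IsFace (sw v '' S) (sw v '' G) := by
  obtain ⟨hne, a, ha, hle, hiff⟩ := h
  refine ⟨hne.image _, fun y => a (sw v y), ha.sw v, fun y hy => hle _ (mem_sw.1 hy), fun y => ?_⟩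
  rw [mem_sw, mem_sw, hiff]

theorem isSimp_sw {v : D → Bool} {G : Set (D → Bool)} {n : ℕ} (h : IsSimp G n) :
    IsSimp (sw v '' G) n := by
  obtain ⟨g, a, rfl, ha, hga⟩ := h
  refine ⟨fun i => sw v (g i), fun i y => a i (sw v y), ?_, fun i => (ha i).sw v, fun i j => ?_⟩
  · rw [← Set.range_comp]
    rfl
  · simp only [sw_sw, hga]

theorem isCube_sw {v : D → Bool} {G : Set (D → Bool)} {l : ℕ} (h : IsCube G l) :
    IsCube (sw v '' G) l := by
  obtain ⟨g, f, u, rfl, ha, hf⟩ := h
  refine ⟨fun x => sw v (g x), f, fun j => xor (v (f j)) (u j), ?_, fun q => ?_, fun x j => ?_⟩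
  · rw [← Set.range_comp]
    rfl
  · cases hv : v q with
    | false =>
      have h1 : (fun x => bv (sw v (g x) q)) = fun x => bv (g x q) := by
        funext x
        simp [sw, hv]
      rw [h1]
      exact ha q
    | true =>
      have h1 : (fun x => bv (sw v (g x) q)) = fun x => 1 - bv (g x q) := by
        funext x
        simp only [sw, hv]
        cases g x q <;> simp [bv]
      rw [h1]
      exact (Aff.const 1).sub (ha q)
  · simp only [sw, hf, Bool.xor_assoc]

theorem NS.sw {v : D → Bool} {S : Set (D → Bool)} {k : ℕ} (h : NS k S) :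
    NS k (ZO.sw v '' S) := by
  intro G hG hGs
  have h1 := isFace_sw (v := v) hG
  rw [sw_image_image] at h1
  exact h _ h1 (isSimp_sw hGs)

theorem NC.sw {v : D → Bool} {S : Set (D → Bool)} {l : ℕ} (h : NC l S) :
    NC l (ZO.sw v '' S) := by
  intro G hG hGs
  have h1 := isFace_sw (v := v) hG
  rw [sw_image_image] at h1
  exact h _ h1 (isCube_sw hGs)

/-- A single point is a face. -/
theorem isFace_singleton {S : Set (D → Bool)} {v : D → Bool} (hv : v ∈ S) : IsFace S {v} := by
  classical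
  have h1 := (isFace_self ⟨v, hv⟩).coord (ι := D) id v Finset.univ ⟨v, hv, fun _ _ => rfl⟩
  have h2 : {y | y ∈ S ∧ Agree id v Finset.univ y} = {v} := by
    ext y
    simp only [Set.mem_ofPred_eq, Set.mem_singleton_iff, Agree, id]
    constructor
    · rintro ⟨-, h⟩
      exact funext fun q => h q (Finset.mem_univ q)
    · rintro rfl
      exact ⟨hv, fun _ _ => rfl⟩
  rwa [h2] at h1

theorem core_of_main (main : MainStatement) : CoreStatement := by
  classical
  intro k l
  induction k with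
  | zero =>
    refine ⟨1, fun D _ S hS => Or.inl ?_⟩
    have hne : S.Nonempty := by
      rw [← Set.ncard_pos (Set.toFinite S)]
      exact hS
    obtain ⟨v, hv⟩ := hne
    refine ⟨{v}, isFace_singleton hv, fun _ => v, fun _ _ => 1, ?_, fun _ => Aff.const 1,
      fun i j => ?_⟩
    · ext y
      simp [eq_comm]
    · rw [if_pos (by omega)]
  | succ k ih =>
    obtain ⟨N, hyp⟩ := ih
    obtain ⟨n1, hn1⟩ := main (k + 1) l
    refine ⟨HH N n1 + 1, fun D _ S hS => ?_⟩
    by_contra hcon
    push Not at hcon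
    have hNS0 : NS (k + 1) S := fun G hG hs => hcon.1 G hG hs
    have hNC0 : NC l S := fun G hG hs => hcon.2 G hG hs
    have hne : S.Nonempty := by
      rw [← Set.ncard_pos (Set.toFinite S)]
      omega
    obtain ⟨v, hv⟩ := hne
    have hNS := hNS0.sw (v := v)
    have hNC := hNC0.sw (v := v)
    set S' := sw v '' S with hS'
    have hcard : HH N n1 < S'.ncard := by
      rw [hS', Set.ncard_image_of_injective S (Function.LeftInverse.injective (sw_sw v))]
      omega
    have h0 : (fun _ => false) ∈ S' := ⟨v, hv, by funext q; simp [sw]⟩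
    have hself : IsFace S' S' := isFace_self ⟨_, h0⟩
    have hex : ∃ n, ∃ Q : Finset D, Q.card = n ∧
        ∀ y ∈ S', (∀ q ∈ Q, y q = false) → y = fun _ => false :=
      ⟨_, Finset.univ, rfl, fun y _ h => funext fun q => h q (Finset.mem_univ q)⟩
    obtain ⟨Q, hQc, hQ⟩ := Nat.find_spec hex
    have hmin : ∀ b : D, ∃ y : D → Bool, b ∈ Q →
        y ∈ S' ∧ y b = true ∧ ∀ q ∈ Q, q ≠ b → y q = false := by
      intro b
      by_cases hb : b ∈ Q
      · have h1 : ¬ ∀ y ∈ S', (∀ q ∈ Q.erase b, y q = false) → y = fun _ => false := by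
          intro h
          refine Nat.find_min hex (m := (Q.erase b).card) ?_ ⟨Q.erase b, rfl, h⟩
          rw [← hQc]
          exact Finset.card_erase_lt_of_mem hb
        push Not at h1
        obtain ⟨y, hy, hy1, hy2⟩ := h1
        refine ⟨y, fun _ => ⟨hy, ?_, fun q hq hqb => hy1 q (Finset.mem_erase.2 ⟨hqb, hq⟩)⟩⟩
        by_contra hyb
        refine hy2 (hQ y hy fun q hq => ?_)
        by_cases hqb : q = b
        · rw [hqb]; simpa using hyb
        · exact hy1 q (Finset.mem_erase.2 ⟨hqb, hq⟩)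
      · exact ⟨fun _ => false, fun h => absurd h hb⟩
    choose d hd using hmin
    have hbig : n1 < Q.card := by
      by_contra h
      push Not at h
      obtain ⟨y, hy, hne, hall⟩ := teach hyp hNS hNC n1 S' hself hcard _ h0 Q h
      exact hne (hQ y hy hall)
    have hQne : Q.Nonempty := by
      rw [← Finset.card_pos]; omega
    obtain ⟨q0, hq0⟩ := hQne
    let e : Fin Q.card ≃ Q := (Finset.equivFinOfCardEq rfl).symm
    let f : ℕ → D := fun i => if h : i < Q.card then (e ⟨i, h⟩ : D) else q0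
    have hf : ∀ i (h : i < Q.card), f i = (e ⟨i, h⟩ : D) := fun i h => by simp only [f, dif_pos h]
    have hfQ : ∀ i, i < Q.card → f i ∈ Q := fun i h => by rw [hf i h]; exact (e ⟨i, h⟩).2
    have hfinj : ∀ i j, i < Q.card → j < Q.card → f i = f j → i = j := by
      intro i j hi hj h
      rw [hf i hi, hf j hj] at h
      have := e.injective (Subtype.ext h)
      exact congrArg Fin.val this
    have hlt := hn1 D S' hNS hNC f (Finset.range Q.card) h0
      (fun y hy h => hQ y hy fun q hq => by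
        have h1 := h (e.symm ⟨q, hq⟩) (Finset.mem_range.2 (e.symm ⟨q, hq⟩).2)
        rw [hf _ (e.symm ⟨q, hq⟩).2] at h1
        simpa using h1)
      (fun i => d (f i))
      (fun b hb => (hd (f b) (hfQ b (Finset.mem_range.1 hb))).1)
      (fun b hb c hc => by
        have hb' := Finset.mem_range.1 hb
        have hc' := Finset.mem_range.1 hc
        obtain ⟨-, h1, h2⟩ := hd (f b) (hfQ b hb')
        constructor
        · intro h
          by_contra hbc
          have h3 := h2 (f c) (hfQ c hc') fun h4 => hbc (hfinj b c hb' hc' h4.symm)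
          rw [h] at h3
          exact absurd h3 (by simp)
        · rintro rfl
          exact h1)
    rw [Finset.card_range] at hlt
    omega

end Pool.Agent.Lib.MP_257afc_co.ZO
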