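import Pool.Agent.Lib.MP_257afc_co.ZO.H41.Main
import Pool.Agent.Lib.MP_257afc_co.ZO.H41.Pyr
import Pool.Agent.Lib.MP_257afc_co.ZO.H47.Comb
import Pool.Agent.Lib.MP_257afc_co.ZO.H83.Level
import Pool.Agent.Lib.MP_257afc_co.ZO.H87.Geom

/-!
The theorem on 0/1-points, all modules put together.
-/

set_option autoImplicit false

namespace Pool.Agent.Lib.MP_257afc_co.ZO

theorem core : CoreStatement :=
  core_of_main (main_of (H83.level ram near kd star) (H47.comb ram))

end Pool.Agent.Lib.MP_257afc_co.ZO
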