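import Pool.Agent.Lib.MP_257afc_co.ZO.H41.Sit

/-!
Section 4, second part: (4.5), (4.6), (4.7).
-/

set_option autoImplicit false

namespace Pool.Agent.Lib.MP_257afc_co.ZO

/-- The data produced by (4.3) and (4.4). -/
structure Conf {D : Type} [Fintype D] {k : ℕ} (s : Sit D k) (n : ℕ) where
  /-- the large index set -/
  I : Finset ℕ
  /-- the free index set -/
  I1 : Finset ℕ
  hI : I ⊆ s.B
  hI1 : I1 ⊆ I
  /-- the trace size -/
  m : ℕ
  /-- the indices `l_a` -/
  l : ℕ → ℕ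
  /-- the common part of the traces -/
  B0 : Finset ℕ
  /-- the `K`-sets -/
  Fab : ℕ → ℕ → Finset ℕ
  /-- the coordinates of the bad pairs -/
  q : ℕ → ℕ → D
  /-- the points of the bad pairs -/
  yy : ℕ → ℕ → D → Bool
  l_mem : ∀ a, a < n → l a ∈ I1 ∧ l a ∉ B0
  l_inj : ∀ a b, a < n → b < n → l a = l b → a = b
  B0_sub : B0 ⊆ I1
  B0_card : B0.card + 1 = m
  F_sub : ∀ a b, a < b → b < n → Fab a b ⊆ I1
  l_F : ∀ a b, a < b → b < n → ∀ c, c < n → l c ∈ Fab a b → c = a ∨ c = b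
  F_inter : ∀ a b a' b', a < b → b < n → a' < b' → b' < n → (a, b) ≠ (a', b') →
    ∀ x, x ∈ Fab a b → x ∈ Fab a' b' → x ∈ B0 ∨ ∃ e, e < n ∧ x = l e
  star : ∀ a b, a < b → b < n → ∀ y ∈ s.G I, s.tr y ⊆ I1 → (s.tr y ∩ Fab a b).card < m →
    (∀ x ∈ s.tr y ∩ Fab a b, s.d x (q a b) = false) → y (q a b) = false
  yy_mem : ∀ a b, a < b → b < n → yy a b ∈ s.G (Fab a b)
  yy_tr : ∀ a b, a < b → b < n → s.tr (yy a b) = insert (l b) B0
  yy_q : ∀ a b, a < b → b < n → yy a b (q a b) = true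
  d_q : ∀ a b, a < b → b < n → ∀ x ∈ insert (l b) B0, s.d x (q a b) = false
  d_l : ∀ a b, a < b → b < n → s.d (l a) (q a b) = true

namespace Conf

variable {D : Type} [Fintype D] {k : ℕ} {s : Sit D k} {n : ℕ} (c : Conf s n)

theorem I1_B : c.I1 ⊆ s.B := c.hI1.trans c.hI

theorem F_B {a b : ℕ} (hab : a < b) (hb : b < n) : c.Fab a b ⊆ s.B :=
  (c.F_sub a b hab hb).trans c.I1_B

theorem F_I {a b : ℕ} (hab : a < b) (hb : b < n) : c.Fab a b ⊆ c.I :=
  (c.F_sub a b hab hb).trans c.hI1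

theorem star' {a b : ℕ} (hab : a < b) (hb : b < n) {y : D → Bool} (hy : y ∈ s.G c.I)
    (htr : s.tr y ⊆ c.I1) (h : ∀ x ∈ s.tr y, x ∈ c.Fab a b → x ∈ c.B0) :
    y (c.q a b) = false := by
  have h1 : s.tr y ∩ c.Fab a b ⊆ c.B0 := fun x hx =>
    h x (Finset.mem_inter.1 hx).1 (Finset.mem_inter.1 hx).2
  refine c.star a b hab hb y hy htr ?_ fun x hx => ?_
  · have := Finset.card_le_card h1
    have := c.B0_card
    omega
  · exact c.d_q a b hab hb x (Finset.mem_insert_of_mem (h1 hx))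

/-- (4.5), first part. -/
theorem claim1 {a b e : ℕ} (hab : a < b) (hbe : b < e) (he : e < n) :
    ∀ y ∈ s.G (c.Fab a b), y (c.q b e) = y (s.f (c.l b)) := by
  have hb : b < n := hbe.trans he
  have hle : ∀ y ∈ s.G (c.Fab a b), y (s.f (c.l b)) = false → y (c.q b e) = false := by
    intro y hy hyl
    have htr := s.tr_sub_of_mem (c.F_B hab hb) hy
    refine c.star' hbe he (s.G_mono (c.F_I hab hb) hy) (htr.trans (c.F_sub a b hab hb)) ?_
    intro x hx hxF
    rcases c.F_inter a b b e hab hb hbe he (by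
      intro h
      have := congrArg Prod.fst h
      simp only at this
      omega) x (htr hx) hxF with h | ⟨e', he', rfl⟩
    · exact h
    · exfalso
      have h1 := c.l_F a b hab hb e' he' (htr hx)
      have h2 := c.l_F b e hbe he e' he' hxF
      have h3 : e' = b := by omega
      subst h3
      have h4 := (s.mem_tr.1 hx).2
      rw [hyl] at h4
      exact absurd h4 (by simp)
  have h0 := s.G_zero (c.F_B hab hb) (h := fun y => bv (y (c.q b e)) - bv (y (s.f (c.l b))))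
    ((Aff.coord _).sub (Aff.coord _))
    (fun y hy => by
      cases h : y (s.f (c.l b)) with
      | false => simp [hle y hy h, bv]
      | true => simp only [bv_true]; linarith [bv_le_one (y (c.q b e))])
    (by simp [bv])
    (fun i hi => by
      have hiB := c.F_B hab hb hi
      have hlB : c.l b ∈ s.B := c.I1_B (c.l_mem b hb).1
      by_cases hil : i = c.l b
      · rw [hil, c.d_l b e hbe he, (s.hdf (c.l b) hlB (c.l b) hlB).2 rfl, sub_self]
      · have h1 : s.d i (s.f (c.l b)) = false := by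
          by_contra h
          exact hil ((s.hdf i hiB (c.l b) hlB).1 (by simpa using h))
        rw [h1, hle _ (s.d_mem_G (c.F_B hab hb) hi) h1, sub_self])
  intro y hy
  exact bv_inj (by linarith [h0 y hy])

/-- (4.5), second part. -/
theorem claim2 {a b a' : ℕ} (hab : a < b) (hb : b < n) (ha'b : a' < b) (hne : a' ≠ a) :
    ∀ y ∈ s.G (c.Fab a b), y (c.q a' b) = false := by
  classical
  refine s.G_coord (c.F_B hab hb) fun i hi => ?_
  have hiI1 := c.F_sub a b hab hb hi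
  have hiB := c.I1_B hiI1
  by_cases hiF : i ∈ c.Fab a' b
  · refine c.d_q a' b ha'b hb i ?_
    rcases c.F_inter a b a' b hab hb ha'b hb (by
      intro h
      have := congrArg Prod.fst h
      simp only at this
      omega) i hi hiF with h | ⟨e', he', rfl⟩
    · exact Finset.mem_insert_of_mem h
    · have h1 := c.l_F a b hab hb e' he' hi
      have h2 := c.l_F a' b ha'b hb e' he' hiF
      have h3 : e' = b := by omega
      subst h3
      exact Finset.mem_insert_self _ _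
  · refine c.star' ha'b hb (s.d_mem_G c.hI (c.hI1 hiI1)) ?_ ?_
    · rw [s.d_tr hiB]
      exact Finset.singleton_subset_iff.2 hiI1
    · intro x hx hxF
      rw [s.d_tr hiB, Finset.mem_singleton] at hx
      rw [hx] at hxF
      exact absurd hxF hiF

theorem yy_next {a b e : ℕ} (hab : a < b) (hbe : b < e) (he : e < n) :
    c.yy a b (c.q b e) = true := by
  have hb : b < n := hbe.trans he
  rw [c.claim1 hab hbe he _ (c.yy_mem a b hab hb)]
  have h1 : c.l b ∈ s.tr (c.yy a b) := by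
    rw [c.yy_tr a b hab hb]
    exact Finset.mem_insert_self _ _
  exact (s.mem_tr.1 h1).2

theorem yy_other {a b a' : ℕ} (hab : a < b) (hb : b < n) (ha'b : a' < b) (hne : a' ≠ a) :
    c.yy a b (c.q a' b) = false :=
  c.claim2 hab hb ha'b hne _ (c.yy_mem a b hab hb)

/-- The face `E_b` of (4.6). -/
def E (b : ℕ) : Set (D → Bool) :=
  {y | y ∈ s.G c.I ∧ s.tr y = insert (c.l b) c.B0 ∧ ∀ e, b < e → e < n → y (c.q b e) = true}

theorem yy_mem_E {a b : ℕ} (hab : a < b) (hb : b < n) : c.yy a b ∈ c.E b :=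
  ⟨s.G_mono (c.F_I hab hb) (c.yy_mem a b hab hb), c.yy_tr a b hab hb,
    fun _ hbe he => c.yy_next hab hbe he⟩

theorem tr_eq_iff {A : Finset ℕ} (hA : A ⊆ s.B) (y : D → Bool) :
    s.tr y = A ↔ Agree s.f (fun i => decide (i ∈ A)) s.B y := by
  constructor
  · rintro rfl i hi
    by_cases h : y (s.f i) = true
    · rw [h, eq_comm, decide_eq_true_iff]
      exact s.mem_tr.2 ⟨hi, h⟩
    · have h' : y (s.f i) = false := by simpa using h
      rw [h', eq_comm, decide_eq_false_iff_not]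
      exact fun hi' => h (s.mem_tr.1 hi').2
  · intro h
    ext i
    rw [s.mem_tr]
    constructor
    · rintro ⟨hi, hyi⟩
      have := h i hi
      rw [hyi, eq_comm, decide_eq_true_iff] at this
      exact this
    · intro hi
      refine ⟨hA hi, ?_⟩
      rw [h i (hA hi)]
      exact decide_eq_true hi

theorem l_B0_sub {b : ℕ} (hb : b < n) : insert (c.l b) c.B0 ⊆ c.I1 := by
  intro x hx
  rcases Finset.mem_insert.1 hx with rfl | h
  · exact (c.l_mem b hb).1
  · exact c.B0_sub h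

theorem face_E {b : ℕ} (hb0 : 0 < b) (hb : b < n) : IsFace s.S (c.E b) := by
  classical
  have hy := c.yy_mem_E hb0 hb
  have hsub := (c.l_B0_sub hb).trans c.I1_B
  have h1 := (s.face_G c.hI).coord s.f (fun i => decide (i ∈ insert (c.l b) c.B0)) s.B
    ⟨_, hy.1, (tr_eq_iff hsub _).1 hy.2.1⟩
  have h2 := h1.coord (c.q b) (fun _ => true) (Finset.Ioo b n)
    ⟨_, ⟨hy.1, (tr_eq_iff hsub _).1 hy.2.1⟩, fun e he =>
      hy.2.2 e (Finset.mem_Ioo.1 he).1 (Finset.mem_Ioo.1 he).2⟩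
  have h3 : c.E b = {y | y ∈ {y | y ∈ s.G c.I ∧
      Agree s.f (fun i => decide (i ∈ insert (c.l b) c.B0)) s.B y} ∧
      Agree (c.q b) (fun _ => true) (Finset.Ioo b n) y} := by
    ext y
    constructor
    · rintro ⟨h4, h5, h6⟩
      exact ⟨⟨h4, (tr_eq_iff hsub _).1 h5⟩, fun e he =>
        h6 e (Finset.mem_Ioo.1 he).1 (Finset.mem_Ioo.1 he).2⟩
    · rintro ⟨⟨h4, h5⟩, h6⟩
      exact ⟨h4, (tr_eq_iff hsub _).2 h5, fun e h7 h8 => h6 e (Finset.mem_Ioo.2 ⟨h7, h8⟩)⟩
  rw [h3]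
  exact h2

/-- All coordinates `q a b`, `a ∈ X`, can be one on `E b`. -/
def Av (b : ℕ) (X : Finset ℕ) : Prop := ∃ y ∈ c.E b, ∀ a ∈ X, y (c.q a b) = true

/-- (4.6), one step. -/
theorem av_step {r n0 : ℕ} (level : ∀ (D : Type) [Fintype D]
    (S E : Set (D → Bool)), NS k S → IsFace S E → ∀ (f : ℕ → D) (I : Finset ℕ), n0 ≤ I.card →
      InT E f I ∅ → (∀ i ∈ I, InT E f I {i}) →
      ∃ J : Finset ℕ, J ⊆ I ∧ J.card = r ∧ ∀ A, A ⊆ J → InT E f I A)
    {b : ℕ} (hb : b < n) (C : Finset ℕ) (hC : ∀ a ∈ C, 0 < a ∧ a < b) (hCc : n0 ≤ C.card)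
    (hb0 : 0 < b) : ∃ X, X ⊆ C ∧ X.card = r ∧ c.Av b X := by
  obtain ⟨X, hX, hXc, hXA⟩ := level D s.S (c.E b) s.ns (c.face_E hb0 hb) (fun a => c.q a b) C hCc
    ⟨_, c.yy_mem_E hb0 hb, fun i hi => by
      rw [c.yy_other hb0 hb (hC i hi).2 (hC i hi).1.ne']
      simp⟩
    (fun i hi => ⟨_, c.yy_mem_E (hC i hi).2 hb, fun j hj => by
      by_cases hji : j = i
      · rw [hji, c.yy_q i b (hC i hi).2 hb]
        simp
      · rw [c.yy_other (hC i hi).2 hb (hC j hj).2 hji]
        simp [hji]⟩)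
  obtain ⟨y, hy, hyX⟩ := hXA X (Finset.Subset.refl X)
  exact ⟨X, hX, hXc, y, hy, fun a ha => (hyX a (hX ha)).2 ha⟩

/-- (4.7). -/
theorem final (J : Finset ℕ) (hJ : ∀ b ∈ J, 0 < b ∧ b < n)
    (hav : ∀ b ∈ J, c.Av b (J.filter fun a => a < b)) : J.card ≤ k := by
  classical
  rcases J.eq_empty_or_nonempty with rfl | ⟨b0, hb0⟩
  · simp
  have hz : ∀ b : ℕ, ∃ z, b ∈ J → z ∈ c.E b ∧ ∀ a ∈ J, a < b → z (c.q a b) = true := by
    intro b
    by_cases hb : b ∈ J
    · obtain ⟨z, hz1, hz2⟩ := hav b hb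
      exact ⟨z, fun _ => ⟨hz1, fun a ha hab => hz2 a (Finset.mem_filter.2 ⟨ha, hab⟩)⟩⟩
    · exact ⟨fun _ => false, fun h => absurd h hb⟩
  choose z hz using hz
  have hlB : ∀ a ∈ J, c.l a ∈ s.B := fun a ha => c.I1_B (c.l_mem a (hJ a ha).2).1
  -- values of the points `z b` at the `l a`
  have hzl : ∀ b ∈ J, ∀ a ∈ J, (z b (s.f (c.l a)) = true ↔ a = b) := by
    intro b hb a ha
    have h1 := (hz b hb).1.2.1
    constructor
    · intro h
      have h2 : c.l a ∈ s.tr (z b) := s.mem_tr.2 ⟨hlB a ha, h⟩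
      rw [h1] at h2
      rcases Finset.mem_insert.1 h2 with h3 | h3
      · exact c.l_inj a b (hJ a ha).2 (hJ b hb).2 h3
      · exact absurd h3 (c.l_mem a (hJ a ha).2).2
    · rintro rfl
      have h2 : c.l a ∈ s.tr (z a) := by rw [h1]; exact Finset.mem_insert_self _ _
      exact (s.mem_tr.1 h2).2
  have hzl' : ∀ b ∈ J, ∀ a ∈ J, a ≠ b → z b (s.f (c.l a)) = false := by
    intro b hb a ha hab
    by_contra h
    exact hab ((hzl b hb a ha).1 (by simpa using h))
  set C : Finset ℕ := s.B \ J.image c.l with hC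
  set u : ℕ → Bool := fun x => decide (x ∈ c.B0) with hu
  have hzC : ∀ b ∈ J, Agree s.f u C (z b) := by
    intro b hb x hx
    rw [hC, Finset.mem_sdiff] at hx
    have h1 := (hz b hb).1.2.1
    by_cases hxB : x ∈ c.B0
    · have h2 : x ∈ s.tr (z b) := by rw [h1]; exact Finset.mem_insert_of_mem hxB
      rw [(s.mem_tr.1 h2).2]
      exact (decide_eq_true hxB).symm
    · have h2 : z b (s.f x) = false := by
        by_contra h
        have h3 : x ∈ s.tr (z b) := s.mem_tr.2 ⟨hx.1, by simpa using h⟩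
        rw [h1] at h3
        rcases Finset.mem_insert.1 h3 with h4 | h4
        · exact hx.2 (Finset.mem_image.2 ⟨b, hb, h4.symm⟩)
        · exact hxB h4
      rw [h2]
      exact (decide_eq_false hxB).symm
  have hH0 := (s.face_G c.hI).coord s.f u C ⟨_, (hz b0 hb0).1.1, hzC b0 hb0⟩
  set H0 : Set (D → Bool) := {y | y ∈ s.G c.I ∧ Agree s.f u C y} with hH0def
  have hzH0 : ∀ b ∈ J, z b ∈ H0 := fun b hb => ⟨(hz b hb).1.1, hzC b hb⟩
  have htrH0 : ∀ y ∈ H0, ∀ x ∈ s.tr y, x ∈ c.B0 ∨ ∃ a ∈ J, x = c.l a := by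
    intro y hy x hx
    by_cases hxJ : x ∈ J.image c.l
    · obtain ⟨a, ha, rfl⟩ := Finset.mem_image.1 hxJ
      exact Or.inr ⟨a, ha, rfl⟩
    · left
      have h1 := hy.2 x (Finset.mem_sdiff.2 ⟨(s.mem_tr.1 hx).1, hxJ⟩)
      rw [(s.mem_tr.1 hx).2, eq_comm] at h1
      exact of_decide_eq_true h1
  have hzero : ∀ y ∈ H0, ∀ b ∈ J, ∀ a ∈ J, a < b → y (s.f (c.l a)) = false →
      y (s.f (c.l b)) = false → y (c.q a b) = false := by
    intro y hy b hb a ha hab hya hyb
    refine c.star' hab (hJ b hb).2 hy.1 ?_ ?_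
    · intro x hx
      rcases htrH0 y hy x hx with h | ⟨e, he, rfl⟩
      · exact c.B0_sub h
      · exact (c.l_mem e (hJ e he).2).1
    · intro x hx hxF
      rcases htrH0 y hy x hx with h | ⟨e, he, rfl⟩
      · exact h
      · exfalso
        have h1 := (s.mem_tr.1 hx).2
        rcases c.l_F a b hab (hJ b hb).2 e (hJ e he).2 hxF with h2 | h2
        · rw [h2, hya] at h1
          exact absurd h1 (by simp)
        · rw [h2, hyb] at h1
          exact absurd h1 (by simp)
  set T : ℕ → ℕ → (D → Bool) → ℝ := fun a b y =>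
    bv (y (c.q a b)) - bv (y (s.f (c.l a))) - bv (y (s.f (c.l b))) with hT
  have hTle : ∀ y ∈ H0, ∀ b ∈ J, ∀ a ∈ J, a < b → T a b y ≤ 0 := by
    intro y hy b hb a ha hab
    simp only [hT]
    cases h1 : y (s.f (c.l a)) with
    | true =>
      have := bv_le_one (y (c.q a b))
      have := bv_nonneg (y (s.f (c.l b)))
      simp only [bv_true]
      linarith
    | false =>
      cases h2 : y (s.f (c.l b)) with
      | true =>
        have := bv_le_one (y (c.q a b))
        simp only [bv_true, bv_false]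
        linarith
      | false =>
        rw [hzero y hy b hb a ha hab h1 h2]
        simp [bv]
  have hTz : ∀ e ∈ J, ∀ b ∈ J, ∀ a ∈ J, a < b → T a b (z e) = 0 := by
    intro e he b hb a ha hab
    simp only [hT]
    by_cases hbe : b = e
    · subst hbe
      rw [(hz b hb).2 a ha hab, (hzl b hb b hb).2 rfl, hzl' b hb a ha hab.ne]
      simp [bv]
    · by_cases hae : a = e
      · subst hae
        rw [(hz a ha).1.2.2 b hab (hJ b hb).2, (hzl a ha a ha).2 rfl, hzl' a ha b hb hab.ne']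
        simp [bv]
      · rw [hzero (z e) (hzH0 e he) b hb a ha hab (hzl' e he a ha hae) (hzl' e he b hb hbe),
          hzl' e he a ha hae, hzl' e he b hb hbe]
        simp [bv]
  set Φ : (D → Bool) → ℝ := fun y => ∑ b ∈ J, ∑ a ∈ J.filter (fun a => a < b), T a b y with hΦ
  have hΦa : Aff Φ := Aff.sum _ fun b _ => Aff.sum _ fun a _ =>
    ((Aff.coord _).sub (Aff.coord _)).sub (Aff.coord _)
  have hin : ∀ y ∈ H0, ∀ b ∈ J, ∑ a ∈ J.filter (fun a => a < b), T a b y ≤ 0 := fun y hy b hb =>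
    Finset.sum_nonpos fun a ha =>
      hTle y hy b hb a (Finset.mem_filter.1 ha).1 (Finset.mem_filter.1 ha).2
  have hΦz : ∀ e ∈ J, Φ (z e) = 0 := fun e he =>
    Finset.sum_eq_zero fun b hb => Finset.sum_eq_zero fun a ha =>
      hTz e he b hb a (Finset.mem_filter.1 ha).1 (Finset.mem_filter.1 ha).2
  have hH1 := hH0.zero hΦa (fun y hy => Finset.sum_nonpos fun b hb => hin y hy b hb)
    ⟨z b0, hzH0 b0 hb0, hΦz b0 hb0⟩
  set H1 : Set (D → Bool) := {y | y ∈ H0 ∧ Φ y = 0} with hH1def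
  have hpair : ∀ y ∈ H1, ∀ b ∈ J, ∀ a ∈ J, a < b → y (s.f (c.l a)) = true →
      y (s.f (c.l b)) = true → False := by
    rintro y ⟨hy, hy0⟩ b hb a ha hab h1 h2
    rw [hΦ] at hy0
    have h3 := (Finset.sum_eq_zero_iff_of_nonpos fun b hb => hin y hy b hb).1 hy0 b hb
    have h4 := (Finset.sum_eq_zero_iff_of_nonpos fun a ha =>
      hTle y hy b hb a (Finset.mem_filter.1 ha).1 (Finset.mem_filter.1 ha).2).1 h3 a
      (Finset.mem_filter.2 ⟨ha, hab⟩)
    simp only [hT, h1, h2, bv_true] at h4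
    have := bv_le_one (y (c.q a b))
    linarith
  have hdist : ∀ y ∈ H1, dist' (fun a => s.f (c.l a)) (fun _ => false) J y ≤ 1 := by
    intro y hy
    rw [dist_eq_card]
    have h1 : (J.filter fun a => y (s.f (c.l a)) ≠ false).card ≤ 1 := by
      rw [Finset.card_le_one]
      intro a ha b hb
      rw [Finset.mem_filter] at ha hb
      by_contra hab
      rcases lt_or_gt_of_ne hab with h | h
      · exact hpair y hy b hb.1 a ha.1 h (by simpa using ha.2) (by simpa using hb.2)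
      · exact hpair y hy a ha.1 b hb.1 h (by simpa using hb.2) (by simpa using ha.2)
    exact_mod_cast h1
  have hdistz : ∀ e ∈ J, dist' (fun a => s.f (c.l a)) (fun _ => false) J (z e) = 1 := by
    intro e he
    refine dist_eq_one.2 ⟨e, he, ?_, fun a ha hae => hzl' e he a ha hae⟩
    rw [(hzl e he e he).2 rfl]
    simp
  have hzH1 : ∀ e ∈ J, z e ∈ H1 := fun e he => ⟨hzH0 e he, hΦz e he⟩
  have hH2 := hH1.zero
    (h := fun y => dist' (fun a => s.f (c.l a)) (fun _ => false) J y - 1)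
    ((aff_dist _ _ _).sub (Aff.const 1)) (fun y hy => by linarith [hdist y hy])
    ⟨z b0, hzH1 b0 hb0, by rw [hdistz b0 hb0, sub_self]⟩
  refine ZO.star D k s.S _ s.ns hH2 ℕ (fun a => s.f (c.l a)) (fun _ => false) J J
    (Finset.Subset.refl J) ?_ ?_
  · rintro y ⟨-, hy⟩
    exact dist_eq_one.1 (by linarith)
  · intro e he
    refine ⟨z e, ⟨hzH1 e he, by simp only [hdistz e he, sub_self]⟩, ?_⟩
    rw [(hzl e he e he).2 rfl]
    simp

end Conf

end Pool.Agent.Lib.MP_257afc_co.ZO
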