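import Pool.Agent.Lib.MP_257afc_co.ZO.Base

/-!
Calculus of affine functions, faces and closures for sets of 0/1-points.
-/

set_option autoImplicit false

namespace Pool.Agent.Lib.MP_257afc_co.ZO

theorem bv_true : bv true = 1 := by simp [bv]
theorem bv_false : bv false = 0 := by simp [bv]
theorem bv_nonneg (b : Bool) : 0 ≤ bv b := by cases b <;> simp [bv]
theorem bv_le_one (b : Bool) : bv b ≤ 1 := by cases b <;> simp [bv]
theorem bv_eq_zero {b : Bool} : bv b = 0 ↔ b = false := by cases b <;> simp [bv]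
theorem bv_eq_one {b : Bool} : bv b = 1 ↔ b = true := by cases b <;> simp [bv]
theorem bv_inj {a b : Bool} (h : bv a = bv b) : a = b := by cases a <;> cases b <;> simp_all [bv]

theorem bv_xor_eq_zero {a b : Bool} : bv (xor a b) = 0 ↔ a = b := by
  cases a <;> cases b <;> simp [bv]

theorem bv_xor_eq_one {a b : Bool} : bv (xor a b) = 1 ↔ a ≠ b := by
  cases a <;> cases b <;> simp [bv]

variable {D : Type} [Fintype D]

theorem Aff.const (c : ℝ) : Aff (fun _ : D → Bool => c) := ⟨c, 0, fun y => by simp⟩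

theorem Aff.add {h h' : (D → Bool) → ℝ} (a : Aff h) (b : Aff h') : Aff (fun y => h y + h' y) := by
  obtain ⟨c, w, hw⟩ := a
  obtain ⟨c', w', hw'⟩ := b
  refine ⟨c + c', w + w', fun y => ?_⟩
  simp only [hw, hw', Pi.add_apply, add_mul, Finset.sum_add_distrib]
  ring

theorem Aff.smul (r : ℝ) {h : (D → Bool) → ℝ} (a : Aff h) : Aff (fun y => r * h y) := by
  obtain ⟨c, w, hw⟩ := a
  refine ⟨r * c, fun q => r * w q, fun y => ?_⟩
  simp only [hw, mul_add, Finset.mul_sum, mul_assoc]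

theorem Aff.neg {h : (D → Bool) → ℝ} (a : Aff h) : Aff (fun y => - h y) := by
  have := a.smul (-1)
  simpa using this

theorem Aff.sub {h h' : (D → Bool) → ℝ} (a : Aff h) (b : Aff h') : Aff (fun y => h y - h' y) := by
  have := a.add b.neg
  simpa [sub_eq_add_neg] using this

theorem Aff.sum {ι : Type*} (s : Finset ι) {h : ι → (D → Bool) → ℝ} (a : ∀ i ∈ s, Aff (h i)) :
    Aff (fun y => ∑ i ∈ s, h i y) := by
  classical
  induction s using Finset.induction_on with
  | empty => simpa using Aff.const (D := D) 0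
  | insert i s hi ih =>
    have h1 := (a i (Finset.mem_insert_self _ _)).add
      (ih fun j hj => a j (Finset.mem_insert_of_mem hj))
    have h2 : (fun y => ∑ i ∈ insert i s, h i y) = fun y => h i y + ∑ i ∈ s, h i y := by
      funext y
      rw [Finset.sum_insert hi]
    rw [h2]
    exact h1

theorem Aff.coord (q : D) : Aff (fun y : D → Bool => bv (y q)) := by
  classical
  refine ⟨0, fun p => if p = q then 1 else 0, fun y => ?_⟩
  simp

theorem Aff.cxor (q : D) (b : Bool) : Aff (fun y : D → Bool => bv (xor (y q) b)) := by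
  cases b with
  | false => simpa using Aff.coord q
  | true =>
    have h := (Aff.const (D := D) 1).sub (Aff.coord q)
    have h2 : (fun y : D → Bool => bv (xor (y q) true)) = fun y => 1 - bv (y q) := by
      funext y
      cases y q <;> simp [bv]
    rw [h2]
    exact h

/-- The number of indices where `y` differs from `u`. -/
noncomputable def dist' {ι : Type} (f : ι → D) (u : ι → Bool) (C : Finset ι) (y : D → Bool) : ℝ :=
  ∑ c ∈ C, bv (xor (y (f c)) (u c))

theorem aff_dist {ι : Type} (f : ι → D) (u : ι → Bool) (C : Finset ι) : Aff (dist' f u C) :=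
  Aff.sum C fun c _ => Aff.cxor (f c) (u c)

omit [Fintype D] in
theorem dist_nonneg' {ι : Type} (f : ι → D) (u : ι → Bool) (C : Finset ι) (y : D → Bool) :
    0 ≤ dist' f u C y := Finset.sum_nonneg fun c _ => bv_nonneg _

omit [Fintype D] in
theorem dist_eq_zero' {ι : Type} {f : ι → D} {u : ι → Bool} {C : Finset ι} {y : D → Bool} :
    dist' f u C y = 0 ↔ Agree f u C y := by
  unfold dist' Agree
  rw [Finset.sum_eq_zero_iff_of_nonneg fun _ _ => bv_nonneg _]
  exact forall₂_congr fun _ _ => bv_xor_eq_zero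

omit [Fintype D] in
theorem dist_eq_card {ι : Type} (f : ι → D) (u : ι → Bool) (C : Finset ι) (y : D → Bool) :
    dist' f u C y = ((C.filter fun c => y (f c) ≠ u c).card : ℝ) := by
  unfold dist'
  rw [Finset.card_filter, Nat.cast_sum]
  refine Finset.sum_congr rfl fun c _ => ?_
  by_cases h : y (f c) = u c
  · rw [bv_xor_eq_zero.2 h]; simp [h]
  · rw [bv_xor_eq_one.2 h]; simp [h]

omit [Fintype D] in
theorem one_le_dist {ι : Type} {f : ι → D} {u : ι → Bool} {C : Finset ι} {y : D → Bool}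
    (h : ¬ Agree f u C y) : 1 ≤ dist' f u C y := by
  have h1 : dist' f u C y ≠ 0 := fun h2 => h (dist_eq_zero'.1 h2)
  rw [dist_eq_card] at h1 ⊢
  have h2 : (C.filter fun c => y (f c) ≠ u c).card ≠ 0 := fun h3 => h1 (by rw [h3]; simp)
  exact_mod_cast Nat.one_le_iff_ne_zero.2 h2

omit [Fintype D] in
theorem dist_eq_one {ι : Type} {f : ι → D} {u : ι → Bool} {C : Finset ι} {y : D → Bool} :
    dist' f u C y = 1 ↔ ∃ c ∈ C, y (f c) ≠ u c ∧ ∀ c' ∈ C, c' ≠ c → y (f c') = u c' := by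
  rw [dist_eq_card, Nat.cast_eq_one, Finset.card_eq_one]
  constructor
  · rintro ⟨c, hc⟩
    have h1 : c ∈ C.filter fun c => y (f c) ≠ u c := by rw [hc]; exact Finset.mem_singleton_self c
    rw [Finset.mem_filter] at h1
    refine ⟨c, h1.1, h1.2, fun c' hc' hne => ?_⟩
    by_contra h2
    have h3 : c' ∈ C.filter fun c => y (f c) ≠ u c := Finset.mem_filter.2 ⟨hc', h2⟩
    rw [hc, Finset.mem_singleton] at h3
    exact hne h3
  · rintro ⟨c, hc, hne, hall⟩
    refine ⟨c, ?_⟩
    ext c'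
    rw [Finset.mem_filter, Finset.mem_singleton]
    constructor
    · rintro ⟨h1, h2⟩
      by_contra h3
      exact h2 (hall c' h1 h3)
    · rintro rfl
      exact ⟨hc, hne⟩

variable {S G H X : Set (D → Bool)}

theorem IsFace.subset (h : IsFace S G) : G ⊆ S := by
  obtain ⟨-, a, -, -, h3⟩ := h
  exact fun y hy => ((h3 y).1 hy).1

theorem IsFace.nonempty (h : IsFace S G) : G.Nonempty := h.1

theorem isFace_self (h : S.Nonempty) : IsFace S S :=
  ⟨h, fun _ => 0, Aff.const 0, fun _ _ => le_rfl, fun y => by simp⟩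

theorem IsFace.trans (h1 : IsFace S G) (h2 : IsFace G H) : IsFace S H := by
  classical
  obtain ⟨-, a, ha, ha1, ha2⟩ := h1
  obtain ⟨hne, b, hb, hb1, hb2⟩ := h2
  set N : ℝ := ∑ y ∈ Finset.univ.filter (fun y => a y < 0), (|b y| + 1) / (- a y) with hN
  have hNy : ∀ y, a y < 0 → b y + N * a y < 0 := by
    intro y hy
    have h1 : (|b y| + 1) / (- a y) ≤ N := by
      rw [hN]
      refine Finset.single_le_sum (f := fun y => (|b y| + 1) / (- a y)) (fun z hz => ?_)
        (Finset.mem_filter.2 ⟨Finset.mem_univ y, hy⟩)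
      have := (Finset.mem_filter.1 hz).2
      exact div_nonneg (by positivity) (by linarith)
    have h2 : |b y| + 1 ≤ N * (- a y) := by
      rw [div_le_iff₀ (by linarith)] at h1
      exact h1
    have h3 := le_abs_self (b y)
    linarith
  refine ⟨hne, fun y => b y + N * a y, hb.add (ha.smul N), fun y hy => ?_, fun y => ?_⟩
  · rcases (ha1 y hy).lt_or_eq with h | h
    · exact (hNy y h).le
    · simp only [h, mul_zero, add_zero]
      exact hb1 y ((ha2 y).2 ⟨hy, h⟩)
  · constructor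
    · intro hy
      obtain ⟨hyG, hby⟩ := (hb2 y).1 hy
      obtain ⟨hyS, hay⟩ := (ha2 y).1 hyG
      refine ⟨hyS, ?_⟩
      simp only [hby, hay, mul_zero, add_zero]
    · rintro ⟨hyS, h0⟩
      have hay : a y = 0 := by
        rcases (ha1 y hyS).lt_or_eq with h | h
        · exact absurd h0 (hNy y h).ne
        · exact h
      simp only [hay, mul_zero, add_zero] at h0
      exact (hb2 y).2 ⟨(ha2 y).2 ⟨hyS, hay⟩, h0⟩

theorem IsFace.zero (hG : IsFace S G) {h : (D → Bool) → ℝ} (ha : Aff h) (hle : ∀ y ∈ G, h y ≤ 0)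
    (hne : ∃ y ∈ G, h y = 0) : IsFace S {y | y ∈ G ∧ h y = 0} := by
  refine hG.trans ⟨?_, h, ha, hle, fun y => Iff.rfl⟩
  obtain ⟨y, hy, hy0⟩ := hne
  exact ⟨y, hy, hy0⟩

theorem IsFace.coord (hG : IsFace S G) {ι : Type} (f : ι → D) (u : ι → Bool) (C : Finset ι)
    (hne : ∃ y ∈ G, Agree f u C y) : IsFace S {y | y ∈ G ∧ Agree f u C y} := by
  have h1 := hG.zero (h := fun y => - dist' f u C y) (aff_dist f u C).neg
    (fun y _ => by linarith [dist_nonneg' f u C y])
    (by
      obtain ⟨y, hy, hy'⟩ := hne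
      exact ⟨y, hy, by rw [dist_eq_zero'.2 hy', neg_zero]⟩)
  have h2 : {y | y ∈ G ∧ Agree f u C y} = {y | y ∈ G ∧ - dist' f u C y = 0} := by
    ext y
    simp only [Set.mem_ofPred_eq, neg_eq_zero, dist_eq_zero']
  rw [h2]
  exact h1

/-- The smallest face of `S` which contains `X`. -/
def cl (S X : Set (D → Bool)) : Set (D → Bool) :=
  {y | y ∈ S ∧ ∀ h : (D → Bool) → ℝ, Aff h → (∀ z ∈ S, h z ≤ 0) → (∀ x ∈ X, h x = 0) → h y = 0}

theorem subset_cl (hX : X ⊆ S) : X ⊆ cl S X := fun x hx => ⟨hX hx, fun _ _ _ h => h x hx⟩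

theorem cl_mono {X' : Set (D → Bool)} (hX : X ⊆ X') : cl S X ⊆ cl S X' :=
  fun y hy => ⟨hy.1, fun h h1 h2 h3 => hy.2 h h1 h2 fun x hx => h3 x (hX hx)⟩

theorem isFace_cl (hX : X ⊆ S) (hne : X.Nonempty) : IsFace S (cl S X) := by
  classical
  have h1 : ∀ y : D → Bool, ∃ h : (D → Bool) → ℝ, Aff h ∧ (∀ z ∈ S, h z ≤ 0) ∧
      (∀ x ∈ X, h x = 0) ∧ (y ∈ S → h y = 0 → y ∈ cl S X) := by
    intro y
    by_cases hy : y ∈ S ∧ y ∉ cl S X
    · obtain ⟨hyS, hyc⟩ := hy
      have h2 : ¬ ∀ h : (D → Bool) → ℝ, Aff h → (∀ z ∈ S, h z ≤ 0) → (∀ x ∈ X, h x = 0) →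
          h y = 0 := fun h3 => hyc ⟨hyS, h3⟩
      push Not at h2
      obtain ⟨h, h3, h4, h5, h6⟩ := h2
      exact ⟨h, h3, h4, h5, fun _ h7 => absurd h7 h6⟩
    · refine ⟨fun _ => 0, Aff.const 0, fun _ _ => le_rfl, fun _ _ => rfl, fun hyS _ => ?_⟩
      by_contra hyc
      exact hy ⟨hyS, hyc⟩
  choose h ha hS hX0 hcl using h1
  refine ⟨hne.mono (subset_cl hX), fun z => ∑ y, h y z, Aff.sum _ fun y _ => ha y,
    fun z hz => Finset.sum_nonpos fun y _ => hS y z hz, fun z => ?_⟩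
  constructor
  · intro hz
    refine ⟨hz.1, ?_⟩
    have := hz.2 (fun z => ∑ y, h y z) (Aff.sum _ fun y _ => ha y)
      (fun z hz => Finset.sum_nonpos fun y _ => hS y z hz)
      (fun x hx => Finset.sum_eq_zero fun y _ => hX0 y x hx)
    exact this
  · rintro ⟨hz, h0⟩
    rw [Finset.sum_eq_zero_iff_of_nonpos fun y _ => hS y z hz] at h0
    exact hcl z hz (h0 z (Finset.mem_univ z))

theorem cl_least (hG : IsFace S G) (hX : X ⊆ G) : cl S X ⊆ G := by
  obtain ⟨-, a, ha, ha1, ha2⟩ := hG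
  intro y hy
  exact (ha2 y).2 ⟨hy.1, hy.2 a ha ha1 fun x hx => ((ha2 x).1 (hX hx)).2⟩

theorem cl_zero (hX : X ⊆ S) (hne : X.Nonempty) {h : (D → Bool) → ℝ} (ha : Aff h)
    (hle : ∀ y ∈ cl S X, h y ≤ 0) (h0 : ∀ x ∈ X, h x = 0) : ∀ y ∈ cl S X, h y = 0 := by
  have h1 := (isFace_cl hX hne).zero ha hle
    (by
      obtain ⟨x, hx⟩ := hne
      exact ⟨x, subset_cl hX hx, h0 x hx⟩)
  intro y hy
  exact (cl_least h1 (fun x hx => ⟨subset_cl hX hx, h0 x hx⟩) hy).2

/-- There is an injective affine function. -/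
theorem exists_injective : ∃ κ : (D → Bool) → ℝ, Aff κ ∧ Function.Injective κ := by
  classical
  let e := Fintype.equivFin D
  let s : (D → Bool) → Finset ℕ := fun y =>
    (Finset.univ.filter fun q => y q = true).image fun q => (e q : ℕ)
  have hinj : Function.Injective fun q : D => (e q : ℕ) := fun p q h => e.injective (Fin.ext h)
  have hs : ∀ y, ∑ q, (2 : ℝ) ^ (e q : ℕ) * bv (y q) = ((∑ i ∈ s y, 2 ^ i : ℕ) : ℝ) := by
    intro y
    rw [Finset.sum_image fun p _ q _ h => hinj h, Finset.sum_filter, Nat.cast_sum]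
    refine Finset.sum_congr rfl fun q _ => ?_
    cases y q <;> simp [bv]
  refine ⟨fun y => ∑ q, (2 : ℝ) ^ (e q : ℕ) * bv (y q),
    ⟨0, fun q => (2 : ℝ) ^ (e q : ℕ), fun y => by rw [zero_add]⟩, ?_⟩
  intro y y' h
  simp only [hs] at h
  have h1 : s y = s y' := Finset.geomSum_injective le_rfl (by exact_mod_cast h)
  funext q
  have h2 : (e q : ℕ) ∈ s y ↔ (e q : ℕ) ∈ s y' := by rw [h1]
  have h3 : ∀ z : D → Bool, (e q : ℕ) ∈ s z ↔ z q = true := by
    intro z
    simp only [s, Finset.mem_image, Finset.mem_filter, Finset.mem_univ, true_and]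
    constructor
    · rintro ⟨p, hp, hpq⟩
      rwa [← hinj hpq]
    · intro hz
      exact ⟨q, hz, rfl⟩
  rw [h3, h3] at h2
  cases h4 : y q <;> cases h5 : y' q <;> simp_all

end Pool.Agent.Lib.MP_257afc_co.ZO
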