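import Pool.Agent.Lib.MP_257afc_co.ZO.Base
import Pool.Agent.Lib.MP_3240be_co.H36.Ramsey

/-!
Finite Ramsey theorem (all sizes at once) and the choice of scales.
-/

set_option autoImplicit false

namespace Pool.Agent.Lib.MP_257afc_co.ZO

open Filter in
theorem ram : RamStatement := by
  classical
  intro C _ m
  by_contra hcon
  push Not at hcon
  choose χ X hX hbad using hcon
  -- an injection of `range N` into `X N`
  have hι : ∀ N, ∃ ι : ℕ → ℕ, Set.InjOn ι (Finset.range N : Set ℕ) ∧
      ∀ i ∈ Finset.range N, ι i ∈ X N := by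
    intro N
    obtain ⟨Z, hZ, hZc⟩ := Finset.exists_subset_card_eq (hX N)
    let e : Fin N ≃ Z := (Finset.equivFinOfCardEq hZc).symm
    refine ⟨fun i => if h : i < N then (e ⟨i, h⟩ : ℕ) else 0, ?_, ?_⟩
    · intro i hi j hj hij
      have hi' : i < N := by simpa using hi
      have hj' : j < N := by simpa using hj
      simp only [dif_pos hi', dif_pos hj'] at hij
      exact congrArg Fin.val (e.injective (Subtype.ext hij))
    · intro i hi
      have hi' : i < N := by simpa using hi
      simp only [dif_pos hi']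
      exact hZ (e ⟨i, hi'⟩).2
  choose ι hinj hιX using hι
  choose χ' hχ' using fun K : Finset ℕ =>
    Pool.Agent.Lib.MP_3240be_co.H36.ulim (hyperfilter ℕ) fun N => χ N (K.image (ι N))
  obtain ⟨S, hS, hSc⟩ := Pool.Agent.Lib.MP_3240be_co.H36.ramsey χ' m
  have h1 : ∀ᶠ N in ((hyperfilter ℕ : Ultrafilter ℕ) : Filter ℕ), ∀ K ∈ S.powerset,
      χ N (K.image (ι N)) = χ' K := by
    rw [Filter.eventually_all_finset]
    intro K _
    exact hχ' K
  have h2 : ∀ᶠ N in ((hyperfilter ℕ : Ultrafilter ℕ) : Filter ℕ), S.sup id < N := by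
    have h3 : ((Set.Iic (S.sup id))ᶜ : Set ℕ) ∈ hyperfilter ℕ :=
      compl_mem_hyperfilter_of_finite (Set.finite_Iic _)
    filter_upwards [h3] with N hN
    simpa using hN
  obtain ⟨N, hN1, hN2⟩ := (h1.and h2).exists
  have hSN : ∀ x ∈ S, x ∈ Finset.range N := by
    intro x hx
    rw [Finset.mem_range]
    exact lt_of_le_of_lt (Finset.le_sup (f := id) hx) hN2
  have hinjS : Set.InjOn (ι N) (S : Set ℕ) := (hinj N).mono fun x hx => hSN x hx
  obtain ⟨K, K', hK, hK', hc, hne⟩ := hbad N (S.image (ι N))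
    (fun x hx => by
      obtain ⟨y, hy, rfl⟩ := Finset.mem_image.1 hx
      exact hιX N y (hSN y hy))
    (by rw [Finset.card_image_of_injOn hinjS, hS])
  have hpre : ∀ L : Finset ℕ, L ⊆ S.image (ι N) → ∃ M, M ⊆ S ∧ M.image (ι N) = L ∧
      M.card = L.card := by
    intro L hL
    refine ⟨S.filter fun x => ι N x ∈ L, Finset.filter_subset _ _, ?_, ?_⟩
    · ext x
      simp only [Finset.mem_image, Finset.mem_filter]
      constructor
      · rintro ⟨y, ⟨-, hy⟩, rfl⟩
        exact hy
      · intro hx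
        obtain ⟨y, hy, rfl⟩ := Finset.mem_image.1 (hL hx)
        exact ⟨y, ⟨hy, hx⟩, rfl⟩
    · rw [← Finset.card_image_of_injOn (f := ι N)
        (hinjS.mono (by exact_mod_cast Finset.filter_subset _ _))]
      congr 1
      ext x
      simp only [Finset.mem_image, Finset.mem_filter]
      constructor
      · rintro ⟨y, ⟨-, hy⟩, rfl⟩
        exact hy
      · intro hx
        obtain ⟨y, hy, rfl⟩ := Finset.mem_image.1 (hL hx)
        exact ⟨y, ⟨hy, hx⟩, rfl⟩
  obtain ⟨M, hM, rfl, hMc⟩ := hpre K hK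
  obtain ⟨M', hM', rfl, hMc'⟩ := hpre K' hK'
  refine hne ?_
  rw [hN1 M (Finset.mem_powerset.2 hM), hN1 M' (Finset.mem_powerset.2 hM')]
  exact hSc M M' hM hM' (by omega)

/-- The sizes in the choice of scales. -/
def scl (n0 : ℕ) (Lam : ℕ → ℕ) : ℕ → ℕ
  | 0 => n0
  | j + 1 => Lam (scl n0 Lam j) + scl n0 Lam j

theorem scale : ScaleStatement := by
  classical
  intro n0 Lam
  refine ⟨scl n0 Lam n0, fun m B hB hm hmono => ?_⟩
  by_contra hcon
  push Not at hcon
  have hge : ∀ j, n0 ≤ scl n0 Lam j := by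
    intro j
    induction j with
    | zero => exact le_rfl
    | succ j ih =>
      change n0 ≤ Lam (scl n0 Lam j) + scl n0 Lam j
      omega
  have key : ∀ j, j ≤ n0 → ∃ I : Finset ℕ, I ⊆ B ∧ I.card = scl n0 Lam (n0 - j) ∧
      j + 1 ≤ m I := by
    intro j
    induction j with
    | zero =>
      intro _
      obtain ⟨I, hI, hIc⟩ := Finset.exists_subset_card_eq hB
      exact ⟨I, hI, by rw [Nat.sub_zero]; exact hIc,
        by have := (hm I hI (by rw [hIc]; exact hge _)).1; omega⟩
    | succ j ih =>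
      intro hj
      obtain ⟨I, hI, hIc, hmI⟩ := ih (by omega)
      have h1 : n0 - j = (n0 - (j + 1)) + 1 := by omega
      have h2 : I.card = Lam (scl n0 Lam (n0 - (j + 1))) + scl n0 Lam (n0 - (j + 1)) := by
        rw [hIc, h1]
        rfl
      obtain ⟨F, hF, hFc, hne⟩ := hcon (scl n0 Lam (n0 - (j + 1))) I (hge _) hI (by omega)
        (by omega)
      refine ⟨F, hF.trans hI, hFc, ?_⟩
      have h3 := hmono F I hF hI (by rw [hFc]; exact hge _)
      omega
  obtain ⟨I, hI, hIc, hmI⟩ := key n0 le_rfl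
  rw [Nat.sub_self] at hIc
  have hIc' : I.card = n0 := hIc
  have := (hm I hI (by omega)).2
  omega

end Pool.Agent.Lib.MP_257afc_co.ZO
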