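import Pool.Agent.Lib.MP_257afc_co.ZO.H41.Conf
import Pool.Agent.Lib.MP_257afc_co.ZO.H41.Ram

/-!
Section 4, assembly.
-/

set_option autoImplicit false

namespace Pool.Agent.Lib.MP_257afc_co.ZO

/-- The iteration in (4.6). -/
theorem select (nn : ℕ → ℕ) : ∀ t : ℕ, ∃ M : ℕ, ∀ (av : ℕ → Finset ℕ → Prop),
    (∀ b X X', av b X → X' ⊆ X → av b X') → ∀ C : Finset ℕ,
    (∀ b ∈ C, ∀ C', C' ⊆ C → (∀ a ∈ C', a < b) → ∀ r, nn r ≤ C'.card →
      ∃ X, X ⊆ C' ∧ X.card = r ∧ av b X) → M ≤ C.card →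
    ∃ J, J ⊆ C ∧ J.card = t ∧ ∀ b ∈ J, av b (J.filter fun a => a < b) := by
  classical
  intro t
  induction t with
  | zero => exact ⟨0, fun _ _ C _ _ => ⟨∅, Finset.empty_subset C, rfl, by simp⟩⟩
  | succ t ih =>
    obtain ⟨M, hM⟩ := ih
    refine ⟨nn M + 1, fun av hmono C hC hCc => ?_⟩
    have hne : C.Nonempty := by
      rw [← Finset.card_pos]; omega
    set b := C.max' hne with hb
    have hbC : b ∈ C := Finset.max'_mem C hne
    have hlt : ∀ a ∈ C.erase b, a < b := by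
      intro a ha
      rw [Finset.mem_erase] at ha
      exact lt_of_le_of_ne (Finset.le_max' C a ha.2) ha.1
    obtain ⟨X, hX, hXc, hXa⟩ := hC b hbC (C.erase b) (Finset.erase_subset _ _) hlt M (by
      rw [Finset.card_erase_of_mem hbC]; omega)
    have hXC : X ⊆ C := hX.trans (Finset.erase_subset _ _)
    obtain ⟨J, hJ, hJc, hJa⟩ := hM av hmono X
      (fun b' hb' C' hC' hlt' r hr => hC b' (hXC hb') C' (hC'.trans hXC) hlt' r hr) hXc.ge
    have hbJ : b ∉ J := fun h => absurd (hlt b (hX (hJ h))) (lt_irrefl b)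
    refine ⟨insert b J, ?_, by rw [Finset.card_insert_of_notMem hbJ, hJc], ?_⟩
    · intro x hx
      rcases Finset.mem_insert.1 hx with rfl | h
      · exact hbC
      · exact hXC (hJ h)
    · intro b' hb'
      rcases Finset.mem_insert.1 hb' with rfl | h
      · refine hmono _ X _ hXa fun a ha => ?_
        rw [Finset.mem_filter, Finset.mem_insert] at ha
        rcases ha.1 with rfl | h
        · exact absurd ha.2 (lt_irrefl _)
        · exact hJ h
      · refine hmono _ _ _ (hJa b' h) fun a ha => ?_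
        rw [Finset.mem_filter, Finset.mem_insert] at ha
        rw [Finset.mem_filter]
        refine ⟨?_, ha.2⟩
        rcases ha.1 with rfl | h'
        · exact absurd (ha.2.trans (hlt b' (hX (hJ h)))) (lt_irrefl _)
        · exact h'

namespace Sit

variable {D : Type} [Fintype D] {k : ℕ} (s : Sit D k)

/-- (4.3): certificates. -/
theorem exists_cert {I : Finset ℕ} (hI : I ⊆ s.B) {B1 : Finset ℕ} (hB1 : B1 ⊆ I)
    (hlt : B1.card < s.m I) {q : D} (hq : ∀ b ∈ B1, s.d b q = false) :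
    ∃ V : Finset ℕ, V ⊆ I ∧ V.card ≤ k ∧
      ∀ y ∈ s.G I, (∀ i ∈ V, (y (s.f i) = true ↔ i ∈ B1)) → y q = false := by
  classical
  let g : Option ℕ → D := fun o => o.elim q s.f
  let u : Option ℕ → Bool := fun o => o.elim true fun i => decide (i ∈ B1)
  have hno : ¬ ∃ y ∈ s.G I, Agree g u (insert none (I.map Function.Embedding.some)) y := by
    rintro ⟨y, hy, hag⟩
    have h1 : y q = true := hag none (Finset.mem_insert_self _ _)
    have h2 : ∀ i ∈ I, y (s.f i) = decide (i ∈ B1) := fun i hi =>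
      hag (some i) (Finset.mem_insert_of_mem (Finset.mem_map_of_mem _ hi))
    have h3 : s.tr y = B1 := by
      ext i
      constructor
      · intro hi
        have h4 := h2 i (s.tr_sub_of_mem hI hy hi)
        rw [(s.mem_tr.1 hi).2, eq_comm] at h4
        exact of_decide_eq_true h4
      · intro hi
        refine s.mem_tr.2 ⟨hI (hB1 hi), ?_⟩
        rw [h2 i (hB1 hi)]
        exact decide_eq_true hi
    have h4 : s.P I B1.card := ⟨y, q, hy, h1, by rw [h3]; exact hq, by rw [h3]⟩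
    exact absurd (s.m_le h4) (by omega)
  obtain ⟨W, hW, hWc, hWn⟩ := kd D k s.S (s.G I) s.ns (s.face_G hI) (Option ℕ) g u _ hno
  refine ⟨I.filter fun i => some i ∈ W, Finset.filter_subset _ _, ?_, ?_⟩
  · refine le_trans ?_ hWc
    rw [← Finset.card_map Function.Embedding.some]
    refine Finset.card_le_card fun o ho => ?_
    obtain ⟨i, hi, rfl⟩ := Finset.mem_map.1 ho
    exact (Finset.mem_filter.1 hi).2
  · intro y hy hyV
    by_contra hyq
    refine hWn ⟨y, hy, fun o ho => ?_⟩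
    cases o with
    | none =>
      change y q = true
      simpa using hyq
    | some i =>
      have hiI : i ∈ I := by
        rcases Finset.mem_insert.1 (hW ho) with h | h
        · exact absurd h (by simp)
        · obtain ⟨j, hj, hji⟩ := Finset.mem_map.1 h
          have : j = i := Option.some.inj hji
          rwa [← this]
      have h1 := hyV i (Finset.mem_filter.2 ⟨hiI, ho⟩)
      change y (s.f i) = decide (i ∈ B1)
      by_cases h : i ∈ B1
      · rw [h1.2 h]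
        exact (decide_eq_true h).symm
      · rw [decide_eq_false h]
        by_contra h2
        exact h (h1.1 (by simpa using h2))

/-- (4.3) and (4.4): the configuration. -/
theorem exists_conf {K m n N : ℕ}
    (comb : ∀ (I : Finset ℕ), N ≤ I.card → ∀ (iF : Finset ℕ → ℕ) (AF V : Finset ℕ → Finset ℕ),
      (∀ F, F ⊆ I → F.card = K →
        iF F ∈ F ∧ AF F ⊆ F ∧ iF F ∉ AF F ∧ (AF F).card = m ∧ (V F).card ≤ 2 ^ K * k) →
      ∃ I1 : Finset ℕ, I1 ⊆ I ∧
        (∀ F, F ⊆ I1 → F.card = K → ∀ x ∈ V F, x ∈ I1 → x ∈ F) ∧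
        ∃ (l : ℕ → ℕ) (B0 : Finset ℕ) (Fab : ℕ → ℕ → Finset ℕ),
          (∀ a, a < n → l a ∈ I1 ∧ l a ∉ B0) ∧
          (∀ a b, a < n → b < n → l a = l b → a = b) ∧
          B0 ⊆ I1 ∧ B0.card + 1 = m ∧
          ∀ a b, a < b → b < n → Fab a b ⊆ I1 ∧ (Fab a b).card = K ∧ iF (Fab a b) = l a ∧
            AF (Fab a b) = insert (l b) B0 ∧ (∀ d, d < n → l d ∈ Fab a b → d = a ∨ d = b) ∧
            ∀ a' b', a' < b' → b' < n → (a, b) ≠ (a', b') →
              ∀ x, x ∈ Fab a b → x ∈ Fab a' b' → x ∈ B0 ∨ ∃ d, d < n ∧ x = l d)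
    {I : Finset ℕ} (hI : I ⊆ s.B) (hN : N ≤ I.card) (hm : s.m I = m)
    (hmF : ∀ F, F ⊆ I → F.card = K → s.P F m) : Nonempty (Conf s n) := by
  classical
  have hbad : ∀ F : Finset ℕ, ∃ (y : D → Bool) (q : D) (i : ℕ), F ⊆ I → F.card = K →
      y ∈ s.G F ∧ y q = true ∧ (∀ a ∈ s.tr y, s.d a q = false) ∧ (s.tr y).card = m ∧
      i ∈ F ∧ s.d i q = true := by
    intro F
    by_cases hF : F ⊆ I ∧ F.card = K
    · obtain ⟨y, q, h1, h2, h3, h4⟩ := hmF F hF.1 hF.2
      obtain ⟨i, hi, hiq⟩ := s.bad_owner (hF.1.trans hI) h1 h2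
      exact ⟨y, q, i, fun _ _ => ⟨h1, h2, h3, h4, hi, hiq⟩⟩
    · by_cases hD : Nonempty D
      · exact ⟨fun _ => false, hD.some, 0, fun h1 h2 => absurd ⟨h1, h2⟩ hF⟩
      · exfalso
        have : IsEmpty D := not_nonempty_iff.1 hD
        exact this.false (s.f 0)
  choose yF qF iF hbad using hbad
  have hV : ∀ (F B1 : Finset ℕ), ∃ V : Finset ℕ, V.card ≤ k ∧ (B1 ⊆ I → B1.card < m →
      (∀ b ∈ B1, s.d b (qF F) = false) → V ⊆ I ∧
      ∀ y ∈ s.G I, (∀ i ∈ V, (y (s.f i) = true ↔ i ∈ B1)) → y (qF F) = false) := by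
    intro F B1
    by_cases h : B1 ⊆ I ∧ B1.card < m ∧ ∀ b ∈ B1, s.d b (qF F) = false
    · obtain ⟨V, h1, h2, h3⟩ := s.exists_cert hI h.1 (by rw [hm]; exact h.2.1) h.2.2
      exact ⟨V, h2, fun _ _ _ => ⟨h1, h3⟩⟩
    · exact ⟨∅, by simp, fun h1 h2 h3 => absurd ⟨h1, h2, h3⟩ h⟩
  choose V hVc hV using hV
  obtain ⟨I1, hI1, hfree, l, B0, Fab, hl, hlinj, hB0, hB0c, hF⟩ := comb I hN iF
    (fun F => s.tr (yF F)) (fun F => F.powerset.biUnion (V F)) (by
      intro F hF hFc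
      obtain ⟨h1, h2, h3, h4, h5, h6⟩ := hbad F hF hFc
      refine ⟨h5, s.tr_sub_of_mem (hF.trans hI) h1, fun h => ?_, h4, ?_⟩
      · rw [h3 _ h] at h6
        exact absurd h6 (by simp)
      · refine (Finset.card_biUnion_le_card_mul _ _ k fun B1 _ => hVc F B1).trans ?_
        rw [Finset.card_powerset, hFc])
  have hFI : ∀ a b, a < b → b < n → Fab a b ⊆ I := fun a b hab hb => (hF a b hab hb).1.trans hI1
  have hb' : ∀ a b, a < b → b < n → _ := fun a b hab hb =>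
    hbad (Fab a b) (hFI a b hab hb) (hF a b hab hb).2.1
  refine ⟨{
    I := I, I1 := I1, hI := hI, hI1 := hI1, m := m, l := l, B0 := B0, Fab := Fab
    q := fun a b => qF (Fab a b)
    yy := fun a b => yF (Fab a b)
    l_mem := hl
    l_inj := hlinj
    B0_sub := hB0
    B0_card := hB0c
    F_sub := fun a b hab hb => (hF a b hab hb).1
    l_F := fun a b hab hb => (hF a b hab hb).2.2.2.2.1
    F_inter := fun a b a' b' hab hb hab' hb' hne =>
      (hF a b hab hb).2.2.2.2.2 a' b' hab' hb' hne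
    star := ?_
    yy_mem := fun a b hab hb => (hb' a b hab hb).1
    yy_tr := fun a b hab hb => (hF a b hab hb).2.2.2.1
    yy_q := fun a b hab hb => (hb' a b hab hb).2.1
    d_q := fun a b hab hb x hx => (hb' a b hab hb).2.2.1 x (by
      have h7 := (hF a b hab hb).2.2.2.1
      rw [h7]
      exact hx)
    d_l := fun a b hab hb => by
      have h1 := (hb' a b hab hb).2.2.2.2.2
      rw [(hF a b hab hb).2.2.1] at h1
      exact h1 }⟩
  intro a b hab hb y hy htr hcard hd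
  obtain ⟨hFI1, hFc, -⟩ := hF a b hab hb
  set F := Fab a b with hFdef
  set B1 := s.tr y ∩ F with hB1
  have hB1F : B1 ⊆ F := Finset.inter_subset_right
  obtain ⟨h1, h2⟩ := hV F B1 (hB1F.trans (hFI1.trans hI1)) hcard hd
  refine h2 y hy fun i hi => ?_
  have hiI := h1 hi
  constructor
  · intro hyi
    have h3 : i ∈ s.tr y := s.mem_tr.2 ⟨hI hiI, hyi⟩
    refine Finset.mem_inter.2 ⟨h3, hfree F hFI1 hFc i ?_ (htr h3)⟩
    exact Finset.mem_biUnion.2 ⟨B1, Finset.mem_powerset.2 hB1F, hi⟩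
  · intro hi'
    exact (s.mem_tr.1 (Finset.mem_inter.1 hi').1).2

end Sit

theorem main_of (level : LevelStatement) (comb : CombStatement) : MainStatement := by
  classical
  intro k l
  obtain ⟨n0, hn0⟩ := level k l
  choose nn hnn using level k
  obtain ⟨M, hM⟩ := select nn (k + 1)
  have hcomb : ∀ K m : ℕ, ∃ N, 1 ≤ m → ∀ (I : Finset ℕ), N ≤ I.card →
      ∀ (iF : Finset ℕ → ℕ) (AF V : Finset ℕ → Finset ℕ),
      (∀ F, F ⊆ I → F.card = K →
        iF F ∈ F ∧ AF F ⊆ F ∧ iF F ∉ AF F ∧ (AF F).card = m ∧ (V F).card ≤ 2 ^ K * k) →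
      ∃ I1 : Finset ℕ, I1 ⊆ I ∧
        (∀ F, F ⊆ I1 → F.card = K → ∀ x ∈ V F, x ∈ I1 → x ∈ F) ∧
        ∃ (l : ℕ → ℕ) (B0 : Finset ℕ) (Fab : ℕ → ℕ → Finset ℕ),
          (∀ a, a < M + 1 → l a ∈ I1 ∧ l a ∉ B0) ∧
          (∀ a b, a < M + 1 → b < M + 1 → l a = l b → a = b) ∧
          B0 ⊆ I1 ∧ B0.card + 1 = m ∧
          ∀ a b, a < b → b < M + 1 → Fab a b ⊆ I1 ∧ (Fab a b).card = K ∧ iF (Fab a b) = l a ∧
            AF (Fab a b) = insert (l b) B0 ∧ (∀ d, d < M + 1 → l d ∈ Fab a b → d = a ∨ d = b) ∧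
            ∀ a' b', a' < b' → b' < M + 1 → (a, b) ≠ (a', b') →
              ∀ x, x ∈ Fab a b → x ∈ Fab a' b' → x ∈ B0 ∨ ∃ d, d < M + 1 ∧ x = l d := by
    intro K m
    by_cases hm : 1 ≤ m
    · obtain ⟨N, hN⟩ := comb K m (2 ^ K * k) (M + 1) hm
      exact ⟨N, fun _ => hN⟩
    · exact ⟨0, fun h => absurd h hm⟩
  choose Nc hNc using hcomb
  obtain ⟨N, hN⟩ := scale n0 (fun K => ∑ m ∈ Finset.range K, Nc K m)
  refine ⟨N, fun D _ S hNS hNC f B h0 hteach d hd hdf => ?_⟩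
  by_contra hB
  push Not at hB
  let s : Sit D k := ⟨S, hNS, f, B, h0, hteach, d, hd, hdf⟩
  have hbad : ∀ F, F ⊆ B → n0 ≤ F.card → ∃ n, s.P F n := fun F hF hFc =>
    s.exists_bad hn0 hNC hF hFc
  obtain ⟨K, I, hK, hI, hLam, hKI, hmF⟩ := hN s.m B hB
    (fun F hF hFc => by
      obtain ⟨n, hn⟩ := hbad F hF hFc
      have h1 := s.P_m hn
      exact ⟨s.P_pos hF h1, s.P_lt hF h1⟩)
    (fun F F' hFF' hF' hFc => by
      obtain ⟨n, hn⟩ := hbad F (hFF'.trans hF') hFc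
      exact s.m_le (s.P_mono hFF' (s.P_m hn)))
  have hPF : ∀ F, F ⊆ I → F.card = K → s.P F (s.m I) := by
    intro F hF hFc
    obtain ⟨n, hn⟩ := hbad F (hF.trans hI) (by omega)
    rw [← hmF F hF hFc]
    exact s.P_m hn
  have h1m : 1 ≤ s.m I := by
    obtain ⟨n, hn⟩ := hbad I hI (by omega)
    exact s.P_pos hI (s.P_m hn)
  have hmK : s.m I < K := by
    obtain ⟨F, hF, hFc⟩ := Finset.exists_subset_card_eq hKI
    have := s.P_lt (hF.trans hI) (hPF F hF hFc)
    omega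
  have hNI : Nc K (s.m I) ≤ I.card := by
    refine le_trans ?_ hLam
    exact Finset.single_le_sum (f := fun m => Nc K m) (fun _ _ => Nat.zero_le _)
      (Finset.mem_range.2 hmK)
  obtain ⟨c⟩ := s.exists_conf (hNc K (s.m I) h1m) hI hNI rfl hPF
  obtain ⟨J, hJ, hJc, hJa⟩ := hM c.Av
    (fun b X X' h hX => by
      obtain ⟨y, hy, hy'⟩ := h
      exact ⟨y, hy, fun a ha => hy' a (hX ha)⟩) (Finset.Ioo 0 (M + 1))
    (fun b hb C' hC' hlt r hr => by
      rw [Finset.mem_Ioo] at hb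
      exact c.av_step (hnn r) hb.2 C' (fun a ha => ⟨(Finset.mem_Ioo.1 (hC' ha)).1, hlt a ha⟩) hr
        hb.1)
    (by rw [Nat.card_Ioo]; omega)
  have := c.final J (fun b hb => Finset.mem_Ioo.1 (hJ hb)) hJa
  omega

end Pool.Agent.Lib.MP_257afc_co.ZO
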