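import Pool.Agent.Lib.MP_257afc_co.ZO.H41.Star

/-!
Section 4, first part: the faces `G F`, traces and bad pairs.
-/

set_option autoImplicit false

namespace Pool.Agent.Lib.MP_257afc_co.ZO

/-- The situation of the main lemma. -/
structure Sit (D : Type) [Fintype D] (k : ℕ) where
  /-- the points -/
  S : Set (D → Bool)
  ns : NS k S
  /-- the coordinates of the index set -/
  f : ℕ → D
  /-- the index set -/
  B : Finset ℕ
  z0 : (fun _ => false) ∈ S
  teach : ∀ y ∈ S, (∀ b ∈ B, y (f b) = false) → y = fun _ => false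
  /-- the neighbouring points -/
  d : ℕ → D → Bool
  hd : ∀ b ∈ B, d b ∈ S
  hdf : ∀ b ∈ B, ∀ c ∈ B, (d b (f c) = true ↔ b = c)

namespace Sit

variable {D : Type} [Fintype D] {k : ℕ} (s : Sit D k)

/-- The generators of `G F`. -/
def gen (F : Finset ℕ) : Set (D → Bool) := insert (fun _ => false) (s.d '' (F : Set ℕ))

/-- The smallest face containing `0` and the points `d a`, `a ∈ F`. -/
def G (F : Finset ℕ) : Set (D → Bool) := cl s.S (s.gen F)

/-- The trace of a point. -/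
noncomputable def tr (y : D → Bool) : Finset ℕ := s.B.filter fun b => y (s.f b) = true

theorem mem_tr {y : D → Bool} {b : ℕ} : b ∈ s.tr y ↔ b ∈ s.B ∧ y (s.f b) = true := by
  unfold tr
  rw [Finset.mem_filter]

theorem tr_sub (y : D → Bool) : s.tr y ⊆ s.B := Finset.filter_subset _ _

theorem zero_mem_gen (F : Finset ℕ) : (fun _ => false) ∈ s.gen F := Set.mem_insert _ _

theorem d_mem_gen {F : Finset ℕ} {a : ℕ} (ha : a ∈ F) : s.d a ∈ s.gen F :=
  Set.mem_insert_of_mem _ ⟨a, ha, rfl⟩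

theorem gen_sub {F : Finset ℕ} (hF : F ⊆ s.B) : s.gen F ⊆ s.S := by
  rintro y (rfl | ⟨a, ha, rfl⟩)
  · exact s.z0
  · exact s.hd a (hF ha)

theorem forall_gen {F : Finset ℕ} {P : (D → Bool) → Prop} (h0 : P fun _ => false)
    (hd : ∀ a ∈ F, P (s.d a)) : ∀ y ∈ s.gen F, P y := by
  rintro y (rfl | ⟨a, ha, rfl⟩)
  · exact h0
  · exact hd a ha

theorem face_G {F : Finset ℕ} (hF : F ⊆ s.B) : IsFace s.S (s.G F) :=
  isFace_cl (s.gen_sub hF) ⟨_, s.zero_mem_gen F⟩

theorem G_sub {F : Finset ℕ} (hF : F ⊆ s.B) : s.G F ⊆ s.S := (s.face_G hF).subset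

theorem zero_mem_G {F : Finset ℕ} (hF : F ⊆ s.B) : (fun _ => false) ∈ s.G F :=
  subset_cl (s.gen_sub hF) (s.zero_mem_gen F)

theorem d_mem_G {F : Finset ℕ} (hF : F ⊆ s.B) {a : ℕ} (ha : a ∈ F) : s.d a ∈ s.G F :=
  subset_cl (s.gen_sub hF) (s.d_mem_gen ha)

theorem G_mono {F F' : Finset ℕ} (h : F ⊆ F') : s.G F ⊆ s.G F' := by
  refine cl_mono ?_
  rintro y (rfl | ⟨a, ha, rfl⟩)
  · exact s.zero_mem_gen F'
  · exact s.d_mem_gen (h ha)

theorem G_zero {F : Finset ℕ} (hF : F ⊆ s.B) {h : (D → Bool) → ℝ} (ha : Aff h)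
    (hle : ∀ y ∈ s.G F, h y ≤ 0) (h0 : h (fun _ => false) = 0) (hd : ∀ a ∈ F, h (s.d a) = 0) :
    ∀ y ∈ s.G F, h y = 0 :=
  cl_zero (s.gen_sub hF) ⟨_, s.zero_mem_gen F⟩ ha hle (s.forall_gen h0 hd)

/-- A coordinate which vanishes at the generators vanishes on `G F`. -/
theorem G_coord {F : Finset ℕ} (hF : F ⊆ s.B) {q : D} (hd : ∀ a ∈ F, s.d a q = false) :
    ∀ y ∈ s.G F, y q = false := by
  intro y hy
  have h1 := s.G_zero hF (h := fun y => - bv (y q)) (Aff.coord q).neg
    (fun y _ => by linarith [bv_nonneg (y q)]) (by simp [bv])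
    (fun a ha => by simp [hd a ha, bv]) y hy
  exact bv_eq_zero.1 (by simpa using h1)

theorem d_tr {a : ℕ} (ha : a ∈ s.B) : s.tr (s.d a) = {a} := by
  ext b
  rw [mem_tr, Finset.mem_singleton]
  constructor
  · rintro ⟨hb, h⟩
    exact ((s.hdf a ha b hb).1 h).symm
  · rintro rfl
    exact ⟨ha, (s.hdf b ha b ha).2 rfl⟩

theorem tr_sub_of_mem {F : Finset ℕ} (hF : F ⊆ s.B) {y : D → Bool} (hy : y ∈ s.G F) :
    s.tr y ⊆ F := by
  intro b hb
  rw [mem_tr] at hb
  by_contra hbF
  have h1 := s.G_coord hF (q := s.f b) (fun a ha => by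
    by_contra h
    have h2 : s.d a (s.f b) = true := by simpa using h
    exact hbF ((s.hdf a (hF ha) b hb.1).1 h2 ▸ ha)) y hy
  rw [hb.2] at h1
  exact absurd h1 (by simp)

/-- The trace sizes of bad pairs. -/
def P (F : Finset ℕ) (n : ℕ) : Prop := ∃ (y : D → Bool) (q : D), y ∈ s.G F ∧ y q = true ∧
  (∀ a ∈ s.tr y, s.d a q = false) ∧ (s.tr y).card = n

/-- The smallest trace size of a bad pair. -/
noncomputable def m (F : Finset ℕ) : ℕ := sInf {n | s.P F n}

theorem P_mono {F F' : Finset ℕ} (h : F ⊆ F') {n : ℕ} (hn : s.P F n) : s.P F' n := by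
  obtain ⟨y, q, h1, h2, h3, h4⟩ := hn
  exact ⟨y, q, s.G_mono h h1, h2, h3, h4⟩

theorem m_le {F : Finset ℕ} {n : ℕ} (hn : s.P F n) : s.m F ≤ n := Nat.sInf_le hn

theorem P_m {F : Finset ℕ} {n : ℕ} (hn : s.P F n) : s.P F (s.m F) := by
  have h : ({n | s.P F n} : Set ℕ).Nonempty := ⟨n, hn⟩
  exact Nat.sInf_mem h

theorem P_pos {F : Finset ℕ} (hF : F ⊆ s.B) {n : ℕ} (hn : s.P F n) : 1 ≤ n := by
  obtain ⟨y, q, h1, h2, -, h4⟩ := hn
  by_contra h
  have h5 : s.tr y = ∅ := Finset.card_eq_zero.1 (by omega)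
  have h6 := s.teach y (s.G_sub hF h1) fun b hb => by
    by_contra h7
    have h8 : b ∈ s.tr y := s.mem_tr.2 ⟨hb, by simpa using h7⟩
    rw [h5] at h8
    exact absurd h8 (Finset.notMem_empty b)
  rw [h6] at h2
  exact absurd h2 (by simp)

theorem bad_owner {F : Finset ℕ} (hF : F ⊆ s.B) {y : D → Bool} {q : D} (hy : y ∈ s.G F)
    (hyq : y q = true) : ∃ i ∈ F, s.d i q = true := by
  by_contra h
  push Not at h
  have h1 := s.G_coord hF (q := q) (fun a ha => by simpa using h a ha) y hy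
  rw [hyq] at h1
  exact absurd h1 (by simp)

theorem P_lt {F : Finset ℕ} (hF : F ⊆ s.B) {n : ℕ} (hn : s.P F n) : n < F.card := by
  obtain ⟨y, q, h1, h2, h3, h4⟩ := hn
  obtain ⟨i, hi, hiq⟩ := s.bad_owner hF h1 h2
  rw [← h4]
  refine Finset.card_lt_card ⟨s.tr_sub_of_mem hF h1, fun h => ?_⟩
  have h5 := h3 i (h hi)
  rw [hiq] at h5
  exact absurd h5 (by simp)

/-- (4.1): no bad pair gives a cube. -/
theorem exists_bad {l n0 : ℕ} (level : ∀ (D : Type) [Fintype D]
    (S E : Set (D → Bool)), NS k S → IsFace S E → ∀ (f : ℕ → D) (I : Finset ℕ), n0 ≤ I.card →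
      InT E f I ∅ → (∀ i ∈ I, InT E f I {i}) →
      ∃ J : Finset ℕ, J ⊆ I ∧ J.card = l ∧ ∀ A, A ⊆ J → InT E f I A)
    (hNC : NC l s.S) {F : Finset ℕ} (hF : F ⊆ s.B) (hFc : n0 ≤ F.card) : ∃ n, s.P F n := by
  classical
  by_contra hcon
  push Not at hcon
  have hno : ∀ y ∈ s.G F, ∀ q, y q = true → ∃ a ∈ s.tr y, s.d a q = true := by
    intro y hy q hq
    by_contra h
    push Not at h
    exact hcon _ ⟨y, q, hy, hq, fun a ha => by simpa using h a ha, rfl⟩
  have hE : ∀ y ∈ s.G F, ∀ q, bv (y q) = ∑ a ∈ F, bv (s.d a q) * bv (y (s.f a)) := by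
    intro y hy q
    have h1 := s.G_zero hF (h := fun y => bv (y q) - ∑ a ∈ F, bv (s.d a q) * bv (y (s.f a)))
      ((Aff.coord q).sub (Aff.sum _ fun a _ => (Aff.coord (s.f a)).smul _))
      (fun y hy => by
        cases hyq : y q with
        | false =>
          have : 0 ≤ ∑ a ∈ F, bv (s.d a q) * bv (y (s.f a)) :=
            Finset.sum_nonneg fun a _ => mul_nonneg (bv_nonneg _) (bv_nonneg _)
          simp only [bv_false]
          linarith
        | true =>
          obtain ⟨a, ha, haq⟩ := hno y hy q hyq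
          have h2 : bv (s.d a q) * bv (y (s.f a)) ≤
              ∑ a ∈ F, bv (s.d a q) * bv (y (s.f a)) :=
            Finset.single_le_sum (f := fun a => bv (s.d a q) * bv (y (s.f a)))
              (fun a _ => mul_nonneg (bv_nonneg _) (bv_nonneg _)) (s.tr_sub_of_mem hF hy ha)
          rw [haq, (s.mem_tr.1 ha).2, bv_true, mul_one] at h2
          simp only [bv_true]
          linarith)
      (by simp [bv])
      (fun i hi => by
        rw [Finset.sum_eq_single i]
        · rw [(s.hdf i (hF hi) i (hF hi)).2 rfl, bv_true, mul_one, sub_self]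
        · intro a ha hai
          have h2 : s.d i (s.f a) = false := by
            by_contra h
            exact hai ((s.hdf i (hF hi) a (hF ha)).1 (by simpa using h)).symm
          rw [h2, bv_false, mul_zero]
        · intro h
          exact absurd hi h) y hy
    linarith
  obtain ⟨J, hJ, hJc, hJA⟩ := level D s.S (s.G F) s.ns (s.face_G hF) s.f F hFc
    ⟨_, s.zero_mem_G hF, fun i _ => by simp⟩
    (fun i hi => ⟨_, s.d_mem_G hF hi, fun j hj => by
      rw [s.hdf i (hF hi) j (hF hj), Finset.mem_singleton, eq_comm]⟩)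
  let e : Fin l ≃ J := (Finset.equivFinOfCardEq hJc).symm
  have hAx : ∀ x : Fin l → Bool, ∃ y ∈ s.G F, ∀ i ∈ F, (y (s.f i) = true ↔
      i ∈ (Finset.univ.filter fun j => x j = true).image fun j => (e j : ℕ)) := by
    intro x
    refine hJA _ ?_
    intro i hi
    obtain ⟨j, -, rfl⟩ := Finset.mem_image.1 hi
    exact (e j).2
  choose g hg hgt using hAx
  have hgJ : ∀ (x : Fin l → Bool) (j : Fin l), g x (s.f (e j)) = x j := by
    intro x j
    have h1 := hgt x (e j) (hJ (e j).2)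
    have h2 : (e j : ℕ) ∈ (Finset.univ.filter fun j => x j = true).image (fun j => (e j : ℕ)) ↔
        x j = true := by
      simp only [Finset.mem_image, Finset.mem_filter, Finset.mem_univ, true_and]
      constructor
      · rintro ⟨j', hj', h⟩
        rwa [← e.injective (Subtype.ext h)]
      · intro h
        exact ⟨j, h, rfl⟩
    rw [h2] at h1
    cases h3 : g x (s.f (e j)) <;> cases h4 : x j <;> simp_all
  have hgN : ∀ (x : Fin l → Bool), ∀ i ∈ F, i ∉ J → g x (s.f i) = false := by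
    intro x i hi hiJ
    by_contra h
    have h1 := (hgt x i hi).1 (by simpa using h)
    obtain ⟨j, -, rfl⟩ := Finset.mem_image.1 h1
    exact hiJ (e j).2
  have hface := (s.face_G hF).coord s.f (fun _ => false) (F \ J)
    ⟨_, s.zero_mem_G hF, fun _ _ => rfl⟩
  refine hNC _ hface ⟨g, fun j => s.f (e j), fun _ => false, ?_, fun q => ?_, fun x j => ?_⟩
  · ext y
    constructor
    · rintro ⟨hy, hag⟩
      refine ⟨fun j => y (s.f (e j)), ?_⟩
      funext q
      refine bv_inj ?_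
      rw [hE _ (hg _) q, hE y hy q]
      refine Finset.sum_congr rfl fun a ha => ?_
      congr 2
      by_cases haJ : a ∈ J
      · have h1 := hgJ (fun j => y (s.f (e j))) (e.symm ⟨a, haJ⟩)
        simpa using h1
      · rw [hgN _ a ha haJ, hag a (Finset.mem_sdiff.2 ⟨ha, haJ⟩)]
    · rintro ⟨x, rfl⟩
      exact ⟨hg x, fun c hc => hgN x c (Finset.mem_sdiff.1 hc).1 (Finset.mem_sdiff.1 hc).2⟩
  · refine ⟨0, fun j => bv (s.d (e j) q), fun x => ?_⟩
    simp only [hE _ (hg x) q, zero_add]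
    have h1 : ∑ a ∈ F, bv (s.d a q) * bv (g x (s.f a)) =
        ∑ a ∈ J, bv (s.d a q) * bv (g x (s.f a)) := by
      refine (Finset.sum_subset hJ fun a ha haJ => ?_).symm
      rw [hgN x a ha haJ, bv_false, mul_zero]
    rw [h1, ← Finset.sum_coe_sort J, ← Equiv.sum_comp e]
    refine Finset.sum_congr rfl fun j _ => ?_
    rw [hgJ]
  · rw [hgJ]
    simp

end Sit

end Pool.Agent.Lib.MP_257afc_co.ZO
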