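import Pool.Agent.Lib.MP_257afc_co.ZO.H41.Face

/-!
The star lemma, near points and missing patterns.
-/

set_option autoImplicit false

namespace Pool.Agent.Lib.MP_257afc_co.ZO

theorem star : StarStatement := by
  classical
  intro D _ k S E hNS hE ι f u C X hXC h1 h2
  by_contra hcard
  push Not at hcard
  obtain ⟨X0, hX0, hX0c⟩ := Finset.exists_subset_card_eq (s := X) (n := k + 1) hcard
  have hX0C : X0 ⊆ C := hX0.trans hXC
  set E' : Set (D → Bool) := {y | y ∈ E ∧ Agree f u (C \ X0) y} with hE'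
  -- every point of `X0` occurs in `E'`
  have hocc : ∀ c ∈ X0, ∃ y ∈ E', y (f c) ≠ u c := by
    intro c hc
    obtain ⟨y, hy, hyc⟩ := h2 c (hX0 hc)
    obtain ⟨c1, hc1, -, hall⟩ := h1 y hy
    have hcc : c = c1 := by
      by_contra hne
      exact hyc (hall c (hX0C hc) hne)
    subst hcc
    refine ⟨y, ⟨hy, fun c' hc' => ?_⟩, hyc⟩
    rw [Finset.mem_sdiff] at hc'
    exact hall c' hc'.1 fun h => hc'.2 (h ▸ hc)
  have hX0ne : X0.Nonempty := by
    rw [← Finset.card_pos, hX0c]; exact Nat.succ_pos k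
  have hface : IsFace S E' := by
    obtain ⟨c, hc⟩ := hX0ne
    obtain ⟨y, hy, -⟩ := hocc c hc
    exact hE.coord f u (C \ X0) ⟨y, hy.1, hy.2⟩
  have huniq : ∀ y ∈ E', ∃ c ∈ X0, y (f c) ≠ u c ∧ ∀ c' ∈ X0, c' ≠ c → y (f c') = u c' := by
    intro y hy
    obtain ⟨c, hc, hne, hall⟩ := h1 y hy.1
    have hc0 : c ∈ X0 := by
      by_contra h
      exact hne (hy.2 c (Finset.mem_sdiff.2 ⟨hc, h⟩))
    exact ⟨c, hc0, hne, fun c' hc' => hall c' (hX0C hc')⟩
  obtain ⟨κ, hκ, hinj⟩ := exists_injective (D := D)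
  have hg : ∀ c : ι, ∃ y, c ∈ X0 → y ∈ E' ∧ y (f c) ≠ u c ∧
      ∀ z ∈ E', z (f c) ≠ u c → κ z ≤ κ y := by
    intro c
    by_cases hc : c ∈ X0
    · obtain ⟨y0, hy0, hy0c⟩ := hocc c hc
      obtain ⟨y, hy, hmax⟩ := Set.exists_max_image {y | y ∈ E' ∧ y (f c) ≠ u c} κ
        (Set.toFinite _) ⟨y0, hy0, hy0c⟩
      exact ⟨y, fun _ => ⟨hy.1, hy.2, fun z hz hzc => hmax z ⟨hz, hzc⟩⟩⟩
    · exact ⟨fun _ => false, fun h => absurd h hc⟩
  choose g hg using hg
  set Φ : (D → Bool) → ℝ := fun y => κ y - ∑ c ∈ X0, κ (g c) * bv (xor (y (f c)) (u c)) with hΦ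
  have hΦa : Aff Φ := hκ.sub (Aff.sum _ fun c _ => (Aff.cxor (f c) (u c)).smul (κ (g c)))
  have hval : ∀ y ∈ E', ∀ c ∈ X0, y (f c) ≠ u c → Φ y = κ y - κ (g c) := by
    intro y hy c hc hyc
    obtain ⟨c1, hc1, hne, hall⟩ := huniq y hy
    have hcc : c = c1 := by
      by_contra h
      exact hyc (hall c hc h)
    subst hcc
    have hsum : ∑ c' ∈ X0, κ (g c') * bv (xor (y (f c')) (u c')) = κ (g c) := by
      rw [Finset.sum_eq_single c]
      · rw [bv_xor_eq_one.2 hyc, mul_one]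
      · intro c' hc' hne'
        rw [bv_xor_eq_zero.2 (hall c' hc' hne'), mul_zero]
      · intro h
        exact absurd hc h
    simp only [hΦ, hsum]
  have hgE : ∀ c ∈ X0, g c ∈ E' ∧ Φ (g c) = 0 := by
    intro c hc
    obtain ⟨h3, h4, -⟩ := hg c hc
    exact ⟨h3, by rw [hval _ h3 c hc h4, sub_self]⟩
  have hle : ∀ y ∈ E', Φ y ≤ 0 := by
    intro y hy
    obtain ⟨c, hc, hne, -⟩ := huniq y hy
    rw [hval y hy c hc hne]
    have := (hg c hc).2.2 y hy hne
    linarith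
  have hF := hface.zero hΦa hle (by
    obtain ⟨c, hc⟩ := hX0ne
    exact ⟨g c, hgE c hc⟩)
  let e : Fin (k + 1) ≃ X0 := (Finset.equivFinOfCardEq hX0c).symm
  refine hNS _ hF ⟨fun i => g (e i), fun i y => bv (xor (y (f (e i))) (u (e i))), ?_,
    fun i => Aff.cxor _ _, ?_⟩
  · ext y
    constructor
    · rintro ⟨hy, hy0⟩
      obtain ⟨c, hc, hne, -⟩ := huniq y hy
      rw [hval y hy c hc hne] at hy0
      have hyg : y = g c := hinj (by linarith)
      refine ⟨e.symm ⟨c, hc⟩, ?_⟩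
      simp only [Equiv.apply_symm_apply]
      exact hyg.symm
    · rintro ⟨i, rfl⟩
      exact hgE _ (e i).2
  · intro i j
    obtain ⟨hj1, hj2, -⟩ := hg (e j) (e j).2
    obtain ⟨c1, hc1, hne, hall⟩ := huniq _ hj1
    have hcc : (e j : ι) = c1 := by
      by_contra h
      exact hj2 (hall _ (e j).2 h)
    subst hcc
    by_cases hij : i = j
    · subst hij
      rw [if_pos rfl]
      exact bv_xor_eq_one.2 hj2
    · rw [if_neg hij]
      refine bv_xor_eq_zero.2 (hall _ (e i).2 fun h => hij ?_)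
      exact e.injective (Subtype.ext h)

theorem near : NearStatement := by
  classical
  intro D _ k S E hNS hE ι f u C X hXC hno hX
  rcases X.eq_empty_or_nonempty with rfl | ⟨c0, hc0⟩
  · simp
  have hone : ∀ c ∈ X, ∃ y ∈ E, y (f c) ≠ u c ∧ dist' f u C y = 1 := by
    intro c hc
    obtain ⟨y, hy, hall⟩ := hX c hc
    have hne : y (f c) ≠ u c := by
      intro h
      refine hno ⟨y, hy, fun c' hc' => ?_⟩
      by_cases hcc : c' = c
      · rw [hcc]; exact h
      · exact hall c' hc' hcc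
    exact ⟨y, hy, hne, dist_eq_one.2 ⟨c, hXC hc, hne, hall⟩⟩
  have hF := hE.zero (h := fun y => 1 - dist' f u C y) ((Aff.const 1).sub (aff_dist f u C))
    (fun y hy => by
      have := one_le_dist (f := f) (u := u) (C := C) (y := y) fun h => hno ⟨y, hy, h⟩
      linarith)
    (by
      obtain ⟨y, hy, -, h⟩ := hone c0 hc0
      exact ⟨y, hy, by rw [h, sub_self]⟩)
  refine star D k S _ hNS hF ι f u C X hXC ?_ ?_
  · rintro y ⟨hy, hy1⟩
    exact dist_eq_one.1 (by linarith)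
  · intro c hc
    obtain ⟨y, hy, hne, h⟩ := hone c hc
    exact ⟨y, ⟨hy, by simp only [h, sub_self]⟩, hne⟩

theorem kd : KDStatement := by
  classical
  intro D _ k S E hNS hE ι f u C hno
  have hex : ∃ n, ∃ W : Finset ι, W ⊆ C ∧ W.card = n ∧ ¬ ∃ y ∈ E, Agree f u W y :=
    ⟨C.card, C, Finset.Subset.refl _, rfl, hno⟩
  obtain ⟨W, hWC, hWc, hW⟩ := Nat.find_spec hex
  refine ⟨W, hWC, ?_, hW⟩
  refine near D k S E hNS hE ι f u W W (Finset.Subset.refl _) hW fun c hc => ?_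
  by_contra h
  refine Nat.find_min hex (m := (W.erase c).card) ?_ ⟨W.erase c,
    (Finset.erase_subset _ _).trans hWC, rfl, ?_⟩
  · rw [← hWc]
    exact Finset.card_erase_lt_of_mem hc
  · rintro ⟨y, hy, hag⟩
    exact h ⟨y, hy, fun c' hc' hne => hag c' (Finset.mem_erase.2 ⟨hne, hc'⟩)⟩

end Pool.Agent.Lib.MP_257afc_co.ZO
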